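import Pool.Agent.TH522.US.Round
import Pool.Agent.TH522.DG.Round

set_option autoImplicit false

/-!
The triangle property of the mixed hierarchy from level one on, and rounding of unique games with
almost perfect completeness and small soundness.
-/

namespace Pool.Agent.Y572.UG

open Finset Pool.Agent.H647R3.UG Pool.Agent.H573R3.SL Pool.Agent.TH522.UG Pool.Agent.TH522.US

section
variable {V A : Type} [Fintype V] [DecidableEq V] [Fintype A] [DecidableEq A]

theorem mixed_mono {k : ℕ} {L : ((V → A) → ℝ) →ₗ[ℝ] ℝ} (hL : Mixed (k + 1) L) : Mixed k L :=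
  (hier_mixed V A).mono k L hL

theorem tri {k : ℕ} {L : ((V → A) → ℝ) →ₗ[ℝ] ℝ} (hL : Mixed (k + 1) L) : Tri L := by
  intro u u' v π π'
  have h1 : 0 ≤ L ((sat u u' (π.trans π'.symm) + fun _ => 1) - (sat u v π + sat u' v π')) := by
    refine hL.junta {u, u', v} ((card_le_three).trans (by omega)) _ ?_ ?_
    · intro x y h
      have e1 := Mx.dep_sat u u' (π.trans π'.symm) {u, u', v} (by simp) (by simp) x y h
      have e2 := Mx.dep_sat u v π {u, u', v} (by simp) (by simp) x y h
      have e3 := Mx.dep_sat u' v π' {u, u', v} (by simp) (by simp) x y h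
      simp only [Pi.add_apply, Pi.sub_apply]
      rw [e1, e2, e3]
    · intro x
      simp only [Pi.add_apply, Pi.sub_apply]
      unfold sat
      by_cases h1 : π (x u) = x v
      · by_cases h2 : π' (x u') = x v
        · have h3 : (π.trans π'.symm) (x u) = x u' := by
            rw [Equiv.trans_apply, h1, ← h2, Equiv.symm_apply_apply]
          rw [if_pos h1, if_pos h2, if_pos h3]
          norm_num
        · rw [if_pos h1, if_neg h2]
          split_ifs <;> norm_num
      · rw [if_neg h1]
        split_ifs <;> norm_num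
  rw [map_sub, map_add, map_add, hL.one] at h1
  linarith

theorem hier_succ : Hier (fun k (L : ((V → A) → ℝ) →ₗ[ℝ] ℝ) => Mixed (k + 1) L) where
  fct k L hL := (hier_mixed V A).fct _ _ hL
  step k L hL u a h := (hier_mixed V A).step (k + 1) L hL u a h
  mono k L hL := (hier_mixed V A).mono (k + 1) L hL
  avg k L hL u v w π := (hier_mixed V A).avg (k + 1) L hL u v w π

end

/-- the number of conditioning steps -/
theorem numA (n : ℕ) (ε l x : ℝ) (hε : 0 < ε) (hε1 : ε ≤ 1 / 49152) (hl : ε ≤ l)
    (hx : x = ε / l) (hn : 0 < Real.log n) (k : ℝ)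
    (hk : 2 ^ 20 * (n : ℝ) ^ (196612 * (x * Real.log (2 / x))) ≤ k) :
    2 ≤ k * ((1 / 32) ^ 2 / 64 * (Real.exp (-(4 * (12288 * (2 * ε)) *
      (Real.log (1 / x) / (l / (2 * Real.log n)) + 1))) * (n : ℝ) ^ (-x))) := by
  have hl0 : 0 < l := lt_of_lt_of_le hε hl
  have hn0 : (0 : ℝ) < n := by
    rcases Nat.eq_zero_or_pos n with h | h
    · rw [h] at hn; simp at hn
    · exact_mod_cast h
  have hx0 : 0 < x := by rw [hx]; positivity
  have hx1 : x ≤ 1 := by rw [hx, div_le_one hl0]; exact hl
  have hxl : x * l = ε := by rw [hx]; field_simp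
  have hlogx : 0 ≤ Real.log (1 / x) := Real.log_nonneg (by rw [le_div_iff₀ hx0]; linarith)
  have hlog2 : Real.log (2 / x) = Real.log 2 + Real.log (1 / x) := by
    rw [← Real.log_mul (by norm_num) (by positivity)]
    congr 1
    ring
  have hl2 := Real.log_two_gt_d9
  have hl2' := Real.log_two_lt_d9
  have e1 : 4 * (12288 * (2 * ε)) * (Real.log (1 / x) / (l / (2 * Real.log n)) + 1) =
      196608 * (x * Real.log (1 / x)) * Real.log n + 98304 * ε := by
    rw [← hxl]
    field_simp
    ring
  rw [e1]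
  have hk0 : 0 < k := lt_of_lt_of_le (by positivity) hk
  rw [Real.rpow_def_of_pos hn0] at hk ⊢
  have h2 : Real.exp (-2) ≤ Real.exp (-(98304 * ε)) := Real.exp_le_exp.2 (by linarith)
  have h3 : Real.exp (-(196608 * (x * Real.log (1 / x)) * Real.log n + 98304 * ε)) *
      Real.exp (Real.log n * -x) ≥ Real.exp (-(196612 * (x * Real.log (2 / x)) * Real.log n)) *
        Real.exp (-2) := by
    rw [← Real.exp_add, ← Real.exp_add]
    apply Real.exp_le_exp.2
    rw [hlog2]
    have h5 : 0 ≤ x * Real.log n := by positivity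
    have h6 : 0 ≤ x * Real.log (1 / x) * Real.log n := by positivity
    have h7 : x * Real.log n ≤ 196612 * Real.log 2 * (x * Real.log n) :=
      le_mul_of_one_le_left h5 (by linarith)
    nlinarith
  have h4 : (7.4 : ℝ)⁻¹ ≤ Real.exp (-2) := by
    rw [Real.exp_neg]
    apply inv_anti₀ (Real.exp_pos _)
    have h5 : Real.exp 2 = Real.exp 1 * Real.exp 1 := by rw [← Real.exp_add]; norm_num
    rw [h5]
    have h6 := Real.exp_one_lt_d9
    nlinarith [Real.exp_pos 1]
  have h8 : 0 < Real.exp (-(196612 * (x * Real.log (2 / x)) * Real.log n)) := Real.exp_pos _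
  have h9 : Real.exp (Real.log n * (196612 * (x * Real.log (2 / x)))) *
      Real.exp (-(196612 * (x * Real.log (2 / x)) * Real.log n)) = 1 := by
    rw [← Real.exp_add]
    convert Real.exp_zero using 2
    ring
  calc (2 : ℝ) ≤ 2 ^ 20 * ((1 / 32) ^ 2 / 64 * (7.4 : ℝ)⁻¹) := by norm_num
    _ = (2 ^ 20 * Real.exp (Real.log n * (196612 * (x * Real.log (2 / x))))) * ((1 / 32) ^ 2 / 64 *
        (Real.exp (-(196612 * (x * Real.log (2 / x)) * Real.log n)) * (7.4 : ℝ)⁻¹)) := by
        linear_combination (-(2 ^ 20 * ((1 / 32) ^ 2 / 64 * (7.4 : ℝ)⁻¹))) * h9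
    _ ≤ k * ((1 / 32) ^ 2 / 64 *
        (Real.exp (-(196612 * (x * Real.log (2 / x)) * Real.log n)) * (7.4 : ℝ)⁻¹)) :=
        mul_le_mul_of_nonneg_right hk (by positivity)
    _ ≤ _ := by
        refine mul_le_mul_of_nonneg_left (mul_le_mul_of_nonneg_left ?_ (by norm_num)) hk0.le
        refine le_trans ?_ h3
        exact mul_le_mul_of_nonneg_left h4 h8.le

end Pool.Agent.Y572.UG
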