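import Mathlib

set_option autoImplicit false

/-!
Partition of the vertices of a graph into parts of small radius such that few edges are cut.
-/

namespace Pool.Agent.Y572.LDD

open Finset

variable {V E : Type} [Fintype V] [DecidableEq V]

/-- balls around `v` in the graph with the edges `F` -/
def ball (s t : E → V) (F : Finset E) (v : V) : ℕ → Finset V
  | 0 => {v}
  | i + 1 => univ.filter fun y => y ∈ ball s t F v i ∨
      ∃ e ∈ F, (s e ∈ ball s t F v i ∧ t e = y) ∨ (t e ∈ ball s t F v i ∧ s e = y)

theorem ball_mono (s t : E → V) (F : Finset E) (v : V) (i : ℕ) :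
    ball s t F v i ⊆ ball s t F v (i + 1) := by
  intro y hy
  rw [ball, mem_filter]
  exact ⟨mem_univ _, Or.inl hy⟩

theorem mem_ball_self (s t : E → V) (F : Finset E) (v : V) (i : ℕ) : v ∈ ball s t F v i := by
  induction i with
  | zero => simp [ball]
  | succ i ih => exact ball_mono s t F v i ih

theorem ball_step (s t : E → V) (F : Finset E) (v : V) (i : ℕ) (e : E) (he : e ∈ F) :
    (s e ∈ ball s t F v i → t e ∈ ball s t F v (i + 1)) ∧
      (t e ∈ ball s t F v i → s e ∈ ball s t F v (i + 1)) := by
  constructor
  · intro h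
    rw [ball, mem_filter]
    exact ⟨mem_univ _, Or.inr ⟨e, he, Or.inl ⟨h, rfl⟩⟩⟩
  · intro h
    rw [ball, mem_filter]
    exact ⟨mem_univ _, Or.inr ⟨e, he, Or.inr ⟨h, rfl⟩⟩⟩

theorem ball_mono' (s t : E → V) (F : Finset E) (v : V) {i j : ℕ} (h : i ≤ j) :
    ball s t F v i ⊆ ball s t F v j := by
  induction h with
  | refl => exact Subset.refl _
  | step _ ih => exact ih.trans (ball_mono s t F v _)

/-- edges inside `C` -/
def ins (s t : E → V) (F : Finset E) (C : Finset V) : Finset E :=
  F.filter fun e => s e ∈ C ∧ t e ∈ C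

/-- edges inside `W` which leave `C` -/
def bdr (s t : E → V) (F : Finset E) (W C : Finset V) : Finset E :=
  F.filter fun e => (s e ∈ W ∧ t e ∈ W) ∧ ¬ (s e ∈ C ↔ t e ∈ C)

/-- one step of the growth of a ball -/
theorem grow (s t : E → V) (F : Finset E) (W : Finset V) (v : V) (i : ℕ) :
    (ins s t F (ball s t F v i ∩ W)).card + (bdr s t F W (ball s t F v i ∩ W)).card ≤
      (ins s t F (ball s t F v (i + 1) ∩ W)).card := by
  classical
  rw [← card_union_of_disjoint]
  · refine card_le_card fun e he => ?_
    rw [mem_union] at he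
    unfold ins bdr at he
    unfold ins
    rw [mem_filter] at he ⊢
    rcases he with ⟨h1, h2, h3⟩ | h
    · rw [mem_inter] at h2 h3
      refine ⟨h1, mem_inter.2 ⟨ball_mono _ _ _ _ _ h2.1, h2.2⟩,
        mem_inter.2 ⟨ball_mono _ _ _ _ _ h3.1, h3.2⟩⟩
    · rw [mem_filter] at h
      obtain ⟨h1, ⟨h2, h3⟩, h4⟩ := h
      have h5 := ball_step s t F v i e h1
      rw [mem_inter, mem_inter] at h4
      refine ⟨h1, mem_inter.2 ⟨?_, h2⟩, mem_inter.2 ⟨?_, h3⟩⟩
      · by_cases h6 : s e ∈ ball s t F v i
        · exact ball_mono _ _ _ _ _ h6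
        · have h7 : t e ∈ ball s t F v i := by
            by_contra h7
            exact h4 ⟨fun h => absurd h.1 h6, fun h => absurd h.1 h7⟩
          exact h5.2 h7
      · by_cases h6 : t e ∈ ball s t F v i
        · exact ball_mono _ _ _ _ _ h6
        · have h7 : s e ∈ ball s t F v i := by
            by_contra h7
            exact h4 ⟨fun h => absurd h.1 h7, fun h => absurd h.1 h6⟩
          exact h5.1 h7
  · rw [disjoint_left]
    intro e h1 h2
    unfold ins at h1
    unfold bdr at h2
    rw [mem_filter] at h1 h2
    exact h2.2.2 ⟨fun _ => h1.2.2, fun _ => h1.2.1⟩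

/-- a ball with few leaving edges -/
theorem exists_radius (s t : E → V) (F : Finset E) (η α : ℝ) (hη : 0 < η) (hα : 0 ≤ α) (R : ℕ)
    (hR : α * Fintype.card V + F.card < α * (1 + η) ^ R) (W : Finset V) (v : V) (hv : v ∈ W) :
    ∃ i, i ≤ R ∧ ((bdr s t F W (ball s t F v i ∩ W)).card : ℝ) ≤
      η * (α * (ball s t F v i ∩ W).card + (ins s t F (ball s t F v i ∩ W)).card) := by
  by_contra hcon
  push Not at hcon
  have h1 : ∀ i, i ≤ R + 1 → α * (1 + η) ^ i ≤
      α * (ball s t F v i ∩ W).card + (ins s t F (ball s t F v i ∩ W)).card := by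
    intro i
    induction i with
    | zero =>
      intro _
      have h2 : (1 : ℝ) ≤ (ball s t F v 0 ∩ W).card := by
        have : 0 < (ball s t F v 0 ∩ W).card :=
          card_pos.2 ⟨v, mem_inter.2 ⟨mem_ball_self _ _ _ _ _, hv⟩⟩
        exact_mod_cast this
      have h3 : (0 : ℝ) ≤ (ins s t F (ball s t F v 0 ∩ W)).card := Nat.cast_nonneg _
      have h4 := mul_le_mul_of_nonneg_left h2 hα
      rw [pow_zero]
      linarith
    | succ i ih =>
      intro hi
      have h2 := ih (by omega)
      have h3 := hcon i (by omega)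
      have h4 := grow s t F W v i
      have h4' : ((ins s t F (ball s t F v i ∩ W)).card : ℝ) +
          (bdr s t F W (ball s t F v i ∩ W)).card ≤
          (ins s t F (ball s t F v (i + 1) ∩ W)).card := by exact_mod_cast h4
      have h5 : ((ball s t F v i ∩ W).card : ℝ) ≤ (ball s t F v (i + 1) ∩ W).card := by
        have := card_le_card (inter_subset_inter_right (u := W) (ball_mono s t F v i))
        exact_mod_cast this
      have h6 := mul_le_mul_of_nonneg_left h5 hα
      have h7 : α * (1 + η) ^ (i + 1) = (1 + η) * (α * (1 + η) ^ i) := by ring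
      rw [h7]
      have h8 := mul_le_mul_of_nonneg_left h2 (by linarith : (0 : ℝ) ≤ 1 + η)
      linarith
  have h2 := h1 R (by omega)
  have h3 : ((ball s t F v R ∩ W).card : ℝ) ≤ Fintype.card V := by
    exact_mod_cast card_le_univ _
  have h4 : ((ins s t F (ball s t F v R ∩ W)).card : ℝ) ≤ F.card := by
    exact_mod_cast card_le_card (filter_subset _ _)
  have h5 := mul_le_mul_of_nonneg_left h3 hα
  linarith

/-- cut edges of a partition of `W` -/
def cut (s t : E → V) (F : Finset E) (W : Finset V) (c : V → V) : Finset E :=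
  F.filter fun e => (s e ∈ W ∧ t e ∈ W) ∧ c (s e) ≠ c (t e)

theorem partition_exists (s t : E → V) (F : Finset E) (η α : ℝ) (hη : 0 < η) (hα : 0 ≤ α) (R : ℕ)
    (hR : α * Fintype.card V + F.card < α * (1 + η) ^ R) :
    ∀ (N : ℕ) (W : Finset V), W.card ≤ N → ∃ c : V → V,
      (∀ v ∈ W, c v ∈ W) ∧ (∀ v ∈ W, v ∈ ball s t F (c v) R) ∧
      ((cut s t F W c).card : ℝ) ≤ η * (α * W.card + (ins s t F W).card) := by
  classical
  intro N
  induction N with
  | zero =>
    intro W hW
    have : W = ∅ := by rw [← card_eq_zero]; omega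
    subst this
    refine ⟨id, by simp, by simp, ?_⟩
    have h1 : cut s t F ∅ id = ∅ := by
      unfold cut; simp
    rw [h1]
    simp only [card_empty, Nat.cast_zero]
    positivity
  | succ N ih =>
    intro W hW
    rcases W.eq_empty_or_nonempty with hW0 | ⟨v, hv⟩
    · exact ih W (by rw [hW0]; simp)
    obtain ⟨i, hi, hib⟩ := exists_radius s t F η α hη hα R hR W v hv
    set C := ball s t F v i ∩ W with hC
    have hvC : v ∈ C := mem_inter.2 ⟨mem_ball_self _ _ _ _ _, hv⟩
    have hCW : C ⊆ W := inter_subset_right
    have hcard : (W \ C).card ≤ N := by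
      rw [card_sdiff_of_subset hCW]
      have := card_pos.2 ⟨v, hvC⟩
      omega
    obtain ⟨c, hc1, hc2, hc3⟩ := ih (W \ C) hcard
    refine ⟨fun y => if y ∈ C then v else c y, ?_, ?_, ?_⟩
    · intro y hy
      beta_reduce
      split_ifs with h
      · exact hv
      · exact (mem_sdiff.1 (hc1 y (mem_sdiff.2 ⟨hy, h⟩))).1
    · intro y hy
      beta_reduce
      split_ifs with h
      · exact ball_mono' s t F v hi (mem_inter.1 h).1
      · exact hc2 y (mem_sdiff.2 ⟨hy, h⟩)
    · have h1 : (cut s t F W fun y => if y ∈ C then v else c y) ⊆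
          bdr s t F W C ∪ cut s t F (W \ C) c := by
        intro e he
        unfold cut at he
        rw [mem_filter] at he
        obtain ⟨h1, ⟨h2, h3⟩, h4⟩ := he
        rw [mem_union]
        by_cases h5 : (s e ∈ C ↔ t e ∈ C)
        · right
          unfold cut
          rw [mem_filter]
          by_cases h6 : s e ∈ C
          · exfalso
            apply h4
            beta_reduce
            rw [if_pos h6, if_pos (h5.1 h6)]
          · have h7 : t e ∉ C := fun h => h6 (h5.2 h)
            beta_reduce at h4
            rw [if_neg h6, if_neg h7] at h4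
            exact ⟨h1, ⟨mem_sdiff.2 ⟨h2, h6⟩, mem_sdiff.2 ⟨h3, h7⟩⟩, h4⟩
        · left
          unfold bdr
          rw [mem_filter]
          exact ⟨h1, ⟨h2, h3⟩, h5⟩
      have h2 : ((cut s t F W fun y => if y ∈ C then v else c y).card : ℝ) ≤
          (bdr s t F W C).card + (cut s t F (W \ C) c).card := by
        exact_mod_cast (card_le_card h1).trans (card_union_le _ _)
      have h3 : (ins s t F C).card + (ins s t F (W \ C)).card ≤ (ins s t F W).card := by
        rw [← card_union_of_disjoint]
        · refine card_le_card fun e he => ?_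
          rw [mem_union] at he
          unfold ins at he ⊢
          rw [mem_filter, mem_filter] at he
          rw [mem_filter]
          rcases he with h | h
          · exact ⟨h.1, hCW h.2.1, hCW h.2.2⟩
          · exact ⟨h.1, (mem_sdiff.1 h.2.1).1, (mem_sdiff.1 h.2.2).1⟩
        · rw [disjoint_left]
          intro e h1 h2
          unfold ins at h1 h2
          rw [mem_filter] at h1 h2
          exact (mem_sdiff.1 h2.2.1).2 h1.2.1
      have h3' : ((ins s t F C).card : ℝ) + (ins s t F (W \ C)).card ≤ (ins s t F W).card := by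
        exact_mod_cast h3
      have h4 : (C.card : ℝ) + (W \ C).card = W.card := by
        have h5 := card_sdiff_add_card_eq_card hCW
        have h6 : ((W \ C).card : ℝ) + C.card = W.card := by exact_mod_cast h5
        linarith
      have h5 := mul_le_mul_of_nonneg_left h3' hη.le
      calc ((cut s t F W fun y => if y ∈ C then v else c y).card : ℝ) ≤
            (bdr s t F W C).card + (cut s t F (W \ C) c).card := h2
        _ ≤ η * (α * C.card + (ins s t F C).card) +
            η * (α * (W \ C).card + (ins s t F (W \ C)).card) := add_le_add hib hc3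
        _ = η * (α * (C.card + (W \ C).card)) +
            η * ((ins s t F C).card + (ins s t F (W \ C)).card) := by ring
        _ ≤ η * (α * (C.card + (W \ C).card)) + η * (ins s t F W).card := by linarith
        _ = _ := by rw [h4]; ring

/-- low-diameter decomposition: centers `c v` such that every vertex is in the ball of radius `R`
around its center, and at most a fraction `η` of the edges joins vertices with different centers -/
theorem ldd (s t : E → V) (F : Finset E) (η : ℝ) (hη : 0 < η) (R : ℕ)
    (hR : 2 * (Fintype.card V : ℝ) < (1 + η / 2) ^ R) :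
    ∃ c : V → V, (∀ v, v ∈ ball s t F (c v) R) ∧
      ((F.filter fun e => c (s e) ≠ c (t e)).card : ℝ) ≤ η * F.card := by
  rcases F.eq_empty_or_nonempty with hF | hF
  · refine ⟨id, fun v => mem_ball_self _ _ _ _ _, ?_⟩
    rw [hF]
    simp
  obtain ⟨e0, he0⟩ := hF
  have hV : (0 : ℝ) < Fintype.card V := by
    have : 0 < Fintype.card V := Fintype.card_pos_iff.2 ⟨s e0⟩
    exact_mod_cast this
  have hF0 : (0 : ℝ) < F.card := by
    have : 0 < F.card := card_pos.2 ⟨e0, he0⟩
    exact_mod_cast this
  have hαV : (F.card : ℝ) / Fintype.card V * Fintype.card V = F.card := by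
    field_simp
  obtain ⟨c, -, h2, h3⟩ := partition_exists s t F (η / 2) (F.card / Fintype.card V) (by positivity)
    (by positivity) R (by
      rw [hαV, div_mul_eq_mul_div, lt_div_iff₀ hV]
      nlinarith) _ univ le_rfl
  refine ⟨c, fun v => h2 v (mem_univ _), ?_⟩
  have h4 : cut s t F univ c = F.filter fun e => c (s e) ≠ c (t e) := by
    unfold cut
    simp
  have h5 : ins s t F univ = F := by
    unfold ins
    simp
  rw [h4, h5, card_univ, hαV] at h3
  linarith

end Pool.Agent.Y572.LDD
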