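import Mathlib

set_option autoImplicit false

/-!
A function on `F_2 ^ n` of degree at most `r` which is not zero is nonzero on at least a fraction
`2 ^ (-r)` of the points.
-/

namespace Pool.Agent.Y572.RM

open Finset

variable {n : ℕ}

/-- the product of the coordinates in `S` -/
def mon (S : Finset (Fin n)) (x : Fin n → ZMod 2) : ZMod 2 := ∏ i ∈ S, x i

/-- functions of degree at most `r` -/
def Lo (n r : ℕ) : Submodule (ZMod 2) ((Fin n → ZMod 2) → ZMod 2) :=
  Submodule.span (ZMod 2) {f | ∃ S : Finset (Fin n), S.card ≤ r ∧ f = mon S}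

theorem mul_self_eq (a : ZMod 2) : a * a = a := by
  revert a
  decide

theorem pow_eq (a : ZMod 2) (k : ℕ) (hk : k ≠ 0) : a ^ k = a := by
  obtain ⟨j, rfl⟩ : ∃ j, k = j + 1 := ⟨k - 1, by omega⟩
  induction j with
  | zero => simp
  | succ j ih =>
    rw [pow_succ, ih (by omega)]
    exact mul_self_eq a

theorem of_poly (r : ℕ) (P : MvPolynomial (Fin n) (ZMod 2)) (hP : P.totalDegree ≤ r) :
    (fun x => MvPolynomial.eval x P) ∈ Lo n r := by
  have h1 : (fun x => MvPolynomial.eval x P) =
      ∑ m ∈ P.support, P.coeff m • mon m.support := by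
    funext x
    rw [MvPolynomial.eval_eq, Finset.sum_apply]
    refine sum_congr rfl fun m _ => ?_
    rw [Pi.smul_apply, smul_eq_mul]
    congr 1
    unfold mon
    refine prod_congr rfl fun i hi => ?_
    exact pow_eq _ _ (Finsupp.mem_support_iff.1 hi)
  rw [h1]
  refine Submodule.sum_mem _ fun m hm => Submodule.smul_mem _ _ (Submodule.subset_span ?_)
  refine ⟨m.support, ?_, rfl⟩
  have h2 := MvPolynomial.le_totalDegree hm
  refine le_trans ?_ (h2.trans hP)
  rw [Finsupp.sum, card_eq_sum_ones]
  exact sum_le_sum fun i hi => Nat.one_le_iff_ne_zero.2 (Finsupp.mem_support_iff.1 hi)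

theorem deriv_mem (r : ℕ) (f : (Fin n → ZMod 2) → ZMod 2) (hf : f ∈ Lo n (r + 1))
    (a : Fin n → ZMod 2) : (fun x => f (x + a) - f x) ∈ Lo n r := by
  unfold Lo at hf
  induction hf using Submodule.span_induction with
  | mem f hf =>
    obtain ⟨S, hS, rfl⟩ := hf
    have h1 : (fun x => mon S (x + a) - mon S x) =
        ∑ T ∈ S.powerset.erase S, (∏ i ∈ S \ T, a i) • mon T := by
      funext x
      rw [Finset.sum_apply]
      unfold mon
      simp only [Pi.add_apply, Pi.smul_apply, smul_eq_mul]
      rw [Finset.prod_add]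
      rw [← Finset.add_sum_erase _ _ (Finset.mem_powerset_self S)]
      rw [Finset.sdiff_self, Finset.prod_empty, mul_one, add_sub_cancel_left]
      exact sum_congr rfl fun T _ => mul_comm _ _
    rw [h1]
    refine Submodule.sum_mem _ fun T hT => Submodule.smul_mem _ _ (Submodule.subset_span ?_)
    refine ⟨T, ?_, rfl⟩
    rw [Finset.mem_erase, Finset.mem_powerset] at hT
    have := Finset.card_lt_card (Finset.ssubset_iff_subset_ne.2 ⟨hT.2, hT.1⟩)
    omega
  | zero =>
    have : (fun x : Fin n → ZMod 2 => (0 : (Fin n → ZMod 2) → ZMod 2) (x + a) -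
        (0 : (Fin n → ZMod 2) → ZMod 2) x) = 0 := by
      funext x; simp
    rw [this]
    exact Submodule.zero_mem _
  | add f g _ _ hf hg =>
    have : (fun x => (f + g) (x + a) - (f + g) x) =
        (fun x => f (x + a) - f x) + fun x => g (x + a) - g x := by
      funext x
      simp only [Pi.add_apply]
      ring
    rw [this]
    exact Submodule.add_mem _ hf hg
  | smul c f _ hf =>
    have : (fun x => (c • f) (x + a) - (c • f) x) = c • fun x => f (x + a) - f x := by
      funext x
      simp only [Pi.smul_apply, smul_eq_mul]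
      ring
    rw [this]
    exact Submodule.smul_mem _ _ hf

theorem const_of_zero (f : (Fin n → ZMod 2) → ZMod 2) (hf : f ∈ Lo n 0) (x y : Fin n → ZMod 2) :
    f x = f y := by
  unfold Lo at hf
  induction hf using Submodule.span_induction with
  | mem f hf =>
    obtain ⟨S, hS, rfl⟩ := hf
    have : S = ∅ := by
      rw [← Finset.card_eq_zero]; omega
    subst this
    simp [mon]
  | zero => rfl
  | add f g _ _ hf hg => simp only [Pi.add_apply, hf, hg]
  | smul c f _ hf => simp only [Pi.smul_apply, hf]

theorem card_of_const (f : (Fin n → ZMod 2) → ZMod 2) (h : ∀ x y, f x = f y)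
    (hx : ∃ x, f x ≠ 0) : (univ.filter fun x => f x ≠ 0).card = 2 ^ n := by
  obtain ⟨x, hx⟩ := hx
  rw [Finset.filter_true_of_mem fun y _ => by rw [h y x]; exact hx]
  rw [card_univ, Fintype.card_fun, ZMod.card, Fintype.card_fin]

/-- the minimal distance of the Reed-Muller code -/
theorem dist : ∀ (r : ℕ) (f : (Fin n → ZMod 2) → ZMod 2), f ∈ Lo n r → (∃ x, f x ≠ 0) →
    2 ^ n ≤ 2 ^ r * (univ.filter fun x => f x ≠ 0).card := by
  intro r
  induction r with
  | zero =>
    intro f hf hx
    rw [card_of_const f (const_of_zero f hf) hx]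
    simp
  | succ r ih =>
    intro f hf hx
    by_cases h : ∃ a x, f (x + a) - f x ≠ 0
    · obtain ⟨a, ha⟩ := h
      have h1 := ih _ (deriv_mem r f hf a) ha
      have h2 : (univ.filter fun x => f (x + a) - f x ≠ 0).card ≤
          2 * (univ.filter fun x => f x ≠ 0).card := by
        have h3 : (univ.filter fun x => f (x + a) - f x ≠ 0) ⊆
            (univ.filter fun x => f x ≠ 0) ∪ (univ.filter fun x => f (x + a) ≠ 0) := by
          intro x hx
          rw [mem_union, mem_filter, mem_filter]
          rw [mem_filter] at hx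
          by_contra hcon
          push Not at hcon
          have e1 := hcon.1 (mem_univ _)
          have e2 := hcon.2 (mem_univ _)
          exact hx.2 (by rw [e1, e2, sub_zero])
        have h4 : (univ.filter fun x => f (x + a) ≠ 0).card =
            (univ.filter fun x => f x ≠ 0).card := by
          refine card_bij (fun x _ => x + a) ?_ ?_ ?_
          · intro x hx
            rw [mem_filter] at hx ⊢
            exact ⟨mem_univ _, hx.2⟩
          · intro x _ y _ hxy
            exact add_right_cancel hxy
          · intro y hy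
            rw [mem_filter] at hy
            refine ⟨y - a, ?_, sub_add_cancel y a⟩
            rw [mem_filter]
            exact ⟨mem_univ _, by rw [sub_add_cancel]; exact hy.2⟩
        have h5 := (card_le_card h3).trans (card_union_le _ _)
        rw [h4] at h5
        omega
      calc 2 ^ n ≤ 2 ^ r * (univ.filter fun x => f (x + a) - f x ≠ 0).card := h1
        _ ≤ 2 ^ r * (2 * (univ.filter fun x => f x ≠ 0).card) := Nat.mul_le_mul_left _ h2
        _ = _ := by ring
    · push Not at h
      have h1 : ∀ x y, f x = f y := by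
        intro x y
        have h2 := h (x - y) y
        rw [add_sub_cancel, sub_eq_zero] at h2
        exact h2
      rw [card_of_const f h1 hx]
      exact Nat.le_mul_of_pos_left _ (by positivity)

/-- vector-valued version: two maps of degree at most `r` agree everywhere or differ on at least a
fraction `2 ^ (-r)` of the points -/
theorem quant (ℓ r : ℕ) (g h : (Fin n → ZMod 2) → Fin ℓ → ZMod 2)
    (hg : ∀ i, (fun x => g x i) ∈ Lo n r) (hh : ∀ i, (fun x => h x i) ∈ Lo n r)
    (hne : ∃ x, g x ≠ h x) : 2 ^ n ≤ 2 ^ r * (univ.filter fun x => g x ≠ h x).card := by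
  obtain ⟨x, hx⟩ := hne
  obtain ⟨i, hi⟩ := Function.ne_iff.1 hx
  have h1 := dist r _ (Submodule.sub_mem _ (hg i) (hh i)) ⟨x, by
    rw [Pi.sub_apply]; exact sub_ne_zero.2 hi⟩
  refine h1.trans (Nat.mul_le_mul_left _ (card_le_card ?_))
  intro y hy
  rw [mem_filter] at hy ⊢
  refine ⟨mem_univ _, fun h => hy.2 ?_⟩
  rw [Pi.sub_apply, h, sub_self]

/-- vector-valued version, with the degree of the difference only -/
theorem quant' (ℓ r : ℕ) (g h : (Fin n → ZMod 2) → Fin ℓ → ZMod 2)
    (hg : ∀ i, (fun x => g x i - h x i) ∈ Lo n r)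
    (hne : ∃ x, g x ≠ h x) : 2 ^ n ≤ 2 ^ r * (univ.filter fun x => g x ≠ h x).card := by
  obtain ⟨x, hx⟩ := hne
  obtain ⟨i, hi⟩ := Function.ne_iff.1 hx
  have h1 := dist r _ (hg i) ⟨x, sub_ne_zero.2 hi⟩
  refine h1.trans (Nat.mul_le_mul_left _ (card_le_card ?_))
  intro y hy
  rw [mem_filter] at hy ⊢
  refine ⟨mem_univ _, fun h => hy.2 ?_⟩
  rw [h, sub_self]

end Pool.Agent.Y572.RM
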