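import Pool.Agent.Y572.UG.Lin3
import Pool.Agent.Y572.UG.LDD
import Pool.Agent.Y572.UG.RM

set_option autoImplicit false

/-!
Reductions from systems of linear equations to unique games whose honest labelings have bounded
degree: the constraints which all honest labelings satisfy can be satisfied together for every
right-hand side.
-/

namespace Pool.Agent.Y572.Deg

open Finset Pool.Agent.Y572.Lin3 Pool.Agent.Y572.LDD

section
variable {n m : ℕ} {V E A : Type} [Fintype V] [DecidableEq V] [Fintype A] [DecidableEq A]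

/-- transport along short walks -/
theorem transport (c : Fin m → Fin 3 → Fin n) (s t : E → V)
    (π : E → (Fin m → ZMod 2) → Equiv.Perm A) (d : ℕ) (b : Fin m → ZMod 2)
    (S : E → Finset (Fin m))
    (hS : ∀ e, (S e).card ≤ d) (hloc : ∀ e b', (∀ j ∈ S e, b j = b' j) → π e b = π e b')
    (h : (Fin n → ZMod 2) → V → A) (F : Finset E)
    (hF : ∀ e ∈ F, ∀ x, π e (lhs c x) (h x (s e)) = h x (t e)) (v : V) :
    ∀ (i : ℕ) (y : V), y ∈ ball s t F v i →
      ∃ (τ : (Fin m → ZMod 2) → Equiv.Perm A) (T : Finset (Fin m)), T.card ≤ i * d ∧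
        (∀ b', (∀ j ∈ T, b j = b' j) → τ b = τ b') ∧ ∀ x, τ (lhs c x) (h x v) = h x y := by
  classical
  intro i
  induction i with
  | zero =>
    intro y hy
    rw [ball, mem_singleton] at hy
    subst hy
    exact ⟨fun _ => 1, ∅, by simp, fun _ _ => rfl, fun x => rfl⟩
  | succ i ih =>
    intro y hy
    rw [ball, mem_filter] at hy
    obtain ⟨-, hy | ⟨e, he, ⟨h1, h2⟩ | ⟨h1, h2⟩⟩⟩ := hy
    · obtain ⟨τ, T, hT, hτ, hx⟩ := ih y hy
      exact ⟨τ, T, hT.trans (Nat.mul_le_mul_right d (by omega)), hτ, hx⟩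
    · obtain ⟨τ, T, hT, hτ, hx⟩ := ih _ h1
      refine ⟨fun b => (τ b).trans (π e b), T ∪ S e, ?_, ?_, ?_⟩
      · refine (card_union_le _ _).trans ?_
        have := hS e
        have h3 : (i + 1) * d = i * d + d := by ring
        omega
      · intro b' hb
        show (τ b).trans (π e b) = (τ b').trans (π e b')
        rw [hτ b' fun j hj => hb j (mem_union_left _ hj),
          hloc e b' fun j hj => hb j (mem_union_right _ hj)]
      · intro x
        rw [Equiv.trans_apply, hx, hF e he, h2]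
    · obtain ⟨τ, T, hT, hτ, hx⟩ := ih _ h1
      refine ⟨fun b => (τ b).trans (π e b).symm, T ∪ S e, ?_, ?_, ?_⟩
      · refine (card_union_le _ _).trans ?_
        have := hS e
        have h3 : (i + 1) * d = i * d + d := by ring
        omega
      · intro b' hb
        show (τ b).trans (π e b).symm = (τ b').trans (π e b').symm
        rw [hτ b' fun j hj => hb j (mem_union_left _ hj),
          hloc e b' fun j hj => hb j (mem_union_right _ hj)]
      · intro x
        rw [Equiv.trans_apply, hx, ← hF e he, Equiv.symm_apply_apply, h2]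

/-- the constraints which all honest labelings satisfy can be satisfied together, up to a fraction
`η` of them, for every right-hand side -/
theorem perfect_part (c : Fin m → Fin 3 → Fin n) (r : ℕ) (hsolv : LocSolv c r) (s t : E → V)
    (π : E → (Fin m → ZMod 2) → Equiv.Perm A) (d : ℕ) (b : Fin m → ZMod 2)
    (S : E → Finset (Fin m))
    (hS : ∀ e, (S e).card ≤ d) (hloc : ∀ e b', (∀ j ∈ S e, b j = b' j) → π e b = π e b')
    (h : (Fin n → ZMod 2) → V → A) (F : Finset E)
    (hF : ∀ e ∈ F, ∀ x, π e (lhs c x) (h x (s e)) = h x (t e)) (η : ℝ) (hη : 0 < η) (R : ℕ)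
    (hR : 2 * (Fintype.card V : ℝ) < (1 + η / 2) ^ R)
    (hr : Fintype.card A * ((2 * R + 1) * d) ≤ r) :
    ∃ X : V → A, (F.card : ℝ) - η * F.card ≤
      ((F.filter fun e => π e b (X (s e)) = X (t e)).card : ℝ) := by
  classical
  obtain ⟨cc, hball, hcut⟩ := ldd s t F η hη R hR
  have htr := fun y => transport c s t π d b S hS hloc h F hF (cc y) R y (hball y)
  choose τ T hT hτ hx using htr
  have hcen : ∀ v, ∃ a : A, ∀ e ∈ F, cc (s e) = v → cc (t e) = v →
      π e b (τ (s e) b a) = τ (t e) b a := by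
    intro v
    by_contra hcon
    push Not at hcon
    choose ea h1 h2 h3 h4 using hcon
    obtain ⟨J, hJ⟩ : ∃ J : Finset (Fin m), J = univ.biUnion fun a =>
      (T (s (ea a)) ∪ T (t (ea a))) ∪ S (ea a) := ⟨_, rfl⟩
    have hJc : J.card ≤ r := by
      rw [hJ]
      refine card_biUnion_le.trans (le_trans ?_ hr)
      have h5 : ∀ a ∈ (univ : Finset A), ((T (s (ea a)) ∪ T (t (ea a))) ∪ S (ea a)).card ≤
          (2 * R + 1) * d := by
        intro a _
        have e1 := card_union_le (T (s (ea a)) ∪ T (t (ea a))) (S (ea a))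
        have e2 := card_union_le (T (s (ea a))) (T (t (ea a)))
        have e3 := hT (s (ea a))
        have e4 := hT (t (ea a))
        have e5 := hS (ea a)
        have e6 : (2 * R + 1) * d = R * d + R * d + d := by ring
        omega
      refine (sum_le_card_nsmul univ _ _ h5).trans ?_
      rw [card_univ, smul_eq_mul]
    obtain ⟨y, hy⟩ := hsolv J hJc b
    have hmem : ∀ a j, j ∈ (T (s (ea a)) ∪ T (t (ea a))) ∪ S (ea a) → b j = lhs c y j := by
      intro a j hj
      exact (hy j (by rw [hJ]; exact mem_biUnion.2 ⟨a, mem_univ _, hj⟩)).symm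
    obtain ⟨a, ha⟩ : ∃ a, a = h y v := ⟨_, rfl⟩
    apply h4 a
    have e1 : τ (s (ea a)) b = τ (s (ea a)) (lhs c y) := hτ _ _ fun j hj =>
      hmem a j (mem_union_left _ (mem_union_left _ hj))
    have e2 : τ (t (ea a)) b = τ (t (ea a)) (lhs c y) := hτ _ _ fun j hj =>
      hmem a j (mem_union_left _ (mem_union_right _ hj))
    have e3 : π (ea a) b = π (ea a) (lhs c y) := hloc _ _ fun j hj =>
      hmem a j (mem_union_right _ hj)
    have e4 : τ (s (ea a)) (lhs c y) a = h y (s (ea a)) := by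
      have := hx (s (ea a)) y
      rw [h2 a, ← ha] at this
      exact this
    have e5 : τ (t (ea a)) (lhs c y) a = h y (t (ea a)) := by
      have := hx (t (ea a)) y
      rw [h3 a, ← ha] at this
      exact this
    rw [e1, e2, e3, e4, e5]
    exact hF _ (h1 a) y
  choose a ha using hcen
  refine ⟨fun z => τ z b (a (cc z)), ?_⟩
  have h1 : F.card ≤ (F.filter fun e => π e b (τ (s e) b (a (cc (s e)))) =
      τ (t e) b (a (cc (t e)))).card + (F.filter fun e => cc (s e) ≠ cc (t e)).card := by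
    rw [← card_filter_add_card_filter_not (s := F) (fun e => cc (s e) ≠ cc (t e)), add_comm]
    refine Nat.add_le_add_right (card_le_card fun e he => ?_) _
    rw [mem_filter, not_not] at he
    rw [mem_filter]
    refine ⟨he.1, ?_⟩
    have h2 := ha (cc (t e)) e he.1 he.2 rfl
    rw [he.2]
    exact h2
  have h2 : (F.card : ℝ) ≤ (F.filter fun e => π e b (τ (s e) b (a (cc (s e)))) =
      τ (t e) b (a (cc (t e)))).card + (F.filter fun e => cc (s e) ≠ cc (t e)).card := by
    exact_mod_cast h1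
  linarith

/-- quantization: if every constraint is violated by the honest labelings of no assignment or of at
least a fraction `1 / Q` of them -/
theorem quantized (c : Fin m → Fin 3 → Fin n) (r : ℕ) (hsolv : LocSolv c r) [Fintype E]
    (s t : E → V)
    (π : E → (Fin m → ZMod 2) → Equiv.Perm A) (d : ℕ) (b : Fin m → ZMod 2)
    (S : E → Finset (Fin m))
    (hS : ∀ e, (S e).card ≤ d) (hloc : ∀ e b', (∀ j ∈ S e, b j = b' j) → π e b = π e b')
    (h : (Fin n → ZMod 2) → V → A) (Q : ℕ)
    (hQ : ∀ e, (∃ x, π e (lhs c x) (h x (s e)) ≠ h x (t e)) →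
      2 ^ n ≤ Q * (univ.filter fun x => π e (lhs c x) (h x (s e)) ≠ h x (t e)).card)
    (ε : ℝ) (hε : ∑ x : Fin n → ZMod 2, ((univ.filter fun e => π e (lhs c x) (h x (s e)) ≠
      h x (t e)).card : ℝ) ≤ ε * Fintype.card E * 2 ^ n) (η : ℝ) (hη : 0 < η) (R : ℕ)
    (hR : 2 * (Fintype.card V : ℝ) < (1 + η / 2) ^ R)
    (hr : Fintype.card A * ((2 * R + 1) * d) ≤ r) :
    ∃ X : V → A, (1 - Q * ε - η) * (Fintype.card E : ℝ) ≤
      ((univ.filter fun e => π e b (X (s e)) = X (t e)).card : ℝ) := by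
  classical
  obtain ⟨F, hF⟩ : ∃ F : Finset E, F = univ.filter fun e =>
    ∀ x, π e (lhs c x) (h x (s e)) = h x (t e) := ⟨_, rfl⟩
  obtain ⟨X, hX⟩ := perfect_part c r hsolv s t π d b S hS hloc h F (fun e he => by
    rw [hF, mem_filter] at he; exact he.2) η hη R hR hr
  refine ⟨X, ?_⟩
  have h1 : ((F.filter fun e => π e b (X (s e)) = X (t e)).card : ℝ) ≤
      (univ.filter fun e => π e b (X (s e)) = X (t e)).card := by
    exact_mod_cast card_le_card (filter_subset_filter _ (subset_univ _))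
  -- the other edges
  have h2 : (Fᶜ.card : ℝ) * 2 ^ n ≤ Q * ∑ x : Fin n → ZMod 2,
      ((univ.filter fun e => π e (lhs c x) (h x (s e)) ≠ h x (t e)).card : ℝ) := by
    have h3 : Fᶜ.card * 2 ^ n ≤ Q * ∑ x : Fin n → ZMod 2,
        (univ.filter fun e => π e (lhs c x) (h x (s e)) ≠ h x (t e)).card := by
      calc Fᶜ.card * 2 ^ n = ∑ _e ∈ Fᶜ, 2 ^ n := by rw [sum_const, smul_eq_mul]
        _ ≤ ∑ e ∈ Fᶜ, Q * (univ.filter fun x => π e (lhs c x) (h x (s e)) ≠ h x (t e)).card := by
            refine sum_le_sum fun e he => hQ e ?_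
            rw [hF, mem_compl, mem_filter] at he
            by_contra hcon
            push Not at hcon
            exact he ⟨mem_univ _, hcon⟩
        _ = Q * ∑ e ∈ Fᶜ, (univ.filter fun x =>
            π e (lhs c x) (h x (s e)) ≠ h x (t e)).card := by rw [mul_sum]
        _ ≤ Q * ∑ e, (univ.filter fun x =>
            π e (lhs c x) (h x (s e)) ≠ h x (t e)).card :=
            Nat.mul_le_mul_left _ (sum_le_sum_of_subset (subset_univ _))
        _ = _ := by
            congr 1
            simp only [card_filter]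
            exact sum_comm
    exact_mod_cast h3
  have h3 : (Fᶜ.card : ℝ) ≤ Q * ε * Fintype.card E := by
    have h4 : (Fᶜ.card : ℝ) * 2 ^ n ≤ (Q * ε * Fintype.card E) * 2 ^ n := by
      refine h2.trans ?_
      have := mul_le_mul_of_nonneg_left hε (Nat.cast_nonneg Q : (0 : ℝ) ≤ Q)
      linarith
    exact le_of_mul_le_mul_right h4 (by positivity)
  have h4 : (F.card : ℝ) + Fᶜ.card = Fintype.card E := by
    exact_mod_cast F.card_add_card_compl
  have h5 : (F.card : ℝ) ≤ Fintype.card E := by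
    exact_mod_cast card_le_univ F
  have h6 := mul_le_mul_of_nonneg_left h5 hη.le
  linarith

end

/-- the radius of the parts -/
theorem exists_R (η : ℝ) (hη : 0 < η) : ∃ C : ℝ, 0 < C ∧ ∀ N : ℕ, ∃ R : ℕ,
    2 * (N : ℝ) < (1 + η / 2) ^ R ∧ ((2 * R + 1 : ℕ) : ℝ) ≤ C * (Real.log N + 1) := by
  have hlog : 0 < Real.log (1 + η / 2) := Real.log_pos (by linarith)
  refine ⟨2 / Real.log (1 + η / 2) + 5, by positivity, fun N => ?_⟩
  rcases Nat.eq_zero_or_pos N with h0 | h0
  · refine ⟨0, ?_, ?_⟩
    · rw [h0]; norm_num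
    · rw [h0]
      simp only [mul_zero, zero_add, Nat.cast_one, Nat.cast_zero, Real.log_zero, mul_one]
      have : 0 ≤ 2 / Real.log (1 + η / 2) := by positivity
      linarith
  · have hN : (1 : ℝ) ≤ N := by exact_mod_cast h0
    have hlogN : 0 ≤ Real.log N := Real.log_nonneg hN
    obtain ⟨y, hy⟩ : ∃ y, y = Real.log (2 * N) / Real.log (1 + η / 2) := ⟨_, rfl⟩
    have hlog2N : Real.log (2 * N) = Real.log 2 + Real.log N :=
      Real.log_mul (by norm_num) (by linarith)
    have hl2 := Real.log_two_lt_d9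
    have hl2' := Real.log_two_gt_d9
    have hy0 : 0 ≤ y := by
      rw [hy]
      apply div_nonneg _ hlog.le
      rw [hlog2N]; linarith
    refine ⟨⌊y⌋₊ + 1, ?_, ?_⟩
    · have h1 : y < ((⌊y⌋₊ + 1 : ℕ) : ℝ) := by push_cast; exact Nat.lt_floor_add_one y
      have h2 : Real.log (2 * N) < ((⌊y⌋₊ + 1 : ℕ) : ℝ) * Real.log (1 + η / 2) := by
        rw [← div_lt_iff₀ hlog, ← hy]
        exact h1
      rw [← Real.log_pow] at h2
      exact (Real.log_lt_log_iff (by positivity) (by positivity)).1 h2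
    · have h1 : (⌊y⌋₊ : ℝ) ≤ y := Nat.floor_le hy0
      have h2 : y ≤ (Real.log N + 1) / Real.log (1 + η / 2) := by
        rw [hy]
        apply div_le_div_of_nonneg_right _ hlog.le
        rw [hlog2N]; linarith
      push_cast
      have h3 : (2 / Real.log (1 + η / 2) + 5) * (Real.log N + 1) =
          2 * ((Real.log N + 1) / Real.log (1 + η / 2)) + 5 * (Real.log N + 1) := by ring
      rw [h3]
      linarith

/-- the barrier for reductions of bounded degree -/
theorem degree_barrier (η : ℝ) (hη : 0 < η) :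
    ∃ M : ℕ, ∃ c0 : ℝ, 0 < c0 ∧ ∃ n0 : ℕ, ∀ n : ℕ, n0 ≤ n →
      ∃ (m : ℕ) (c : Fin m → Fin 3 → Fin n),
        n ≤ 2 * m ∧ m ≤ M * n ∧ (∀ j, Function.Injective (c j)) ∧
        (∃ b : Fin m → ZMod 2, ∀ x : Fin n → ZMod 2,
          (1 / 2 - η) * m ≤ (univ.filter fun j => lhs c x j ≠ b j).card) ∧
        ∀ (V E A : Type) [Fintype V] [Fintype E] [Fintype A] [DecidableEq A] (s t : E → V)
          (d r : ℕ) (π : E → (Fin m → ZMod 2) → Equiv.Perm A)
          (h : (Fin n → ZMod 2) → V → A) (ε : ℝ),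
          (∀ e b, ∃ S : Finset (Fin m), S.card ≤ d ∧
            ∀ b', (∀ j ∈ S, b j = b' j) → π e b = π e b') →
          (∀ e, ∃ Z : Set (MvPolynomial (Fin n) (ZMod 2)), (∀ P ∈ Z, P.totalDegree ≤ r) ∧
            ∀ x, π e (lhs c x) (h x (s e)) = h x (t e) ↔
              ∀ P ∈ Z, MvPolynomial.eval x P = 0) →
          ∑ x : Fin n → ZMod 2, ((univ.filter fun e => π e (lhs c x) (h x (s e)) ≠
            h x (t e)).card : ℝ) ≤ ε * Fintype.card E * 2 ^ n →
          Fintype.card A * d * (Real.log (Fintype.card V) + 1) ≤ c0 * n →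
          ∀ b : Fin m → ZMod 2, ∃ X : V → A,
            (1 - 2 ^ r * ε - η) * (Fintype.card E : ℝ) ≤
              ((univ.filter fun e => π e b (X (s e)) = X (t e)).card : ℝ) := by
  classical
  obtain ⟨M, hM, c0, hc0, n0, h⟩ := exists_system η hη
  obtain ⟨C, hC, hR⟩ := exists_R η hη
  refine ⟨M, c0 / C, by positivity, n0, fun n hn => ?_⟩
  obtain ⟨m, c, r0, h1, h2, h3, h4, h5, h6⟩ := h n hn
  refine ⟨m, c, h1, h2, h3, h6, ?_⟩
  intro V E A _ _ _ _ s t d r π h ε hloc hdeg hε hsize b
  choose S hS hSl using fun e => hloc e b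
  obtain ⟨R, hR1, hR2⟩ := hR (Fintype.card V)
  have hr : Fintype.card A * ((2 * R + 1) * d) ≤ r0 := by
    have h7 : ((Fintype.card A * ((2 * R + 1) * d) : ℕ) : ℝ) ≤ r0 := by
      push_cast
      push_cast at hR2
      calc (Fintype.card A : ℝ) * ((2 * R + 1) * d) = Fintype.card A * d * (2 * R + 1) := by ring
        _ ≤ Fintype.card A * d * (C * (Real.log (Fintype.card V) + 1)) :=
            mul_le_mul_of_nonneg_left hR2 (by positivity)
        _ = C * (Fintype.card A * d * (Real.log (Fintype.card V) + 1)) := by ring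
        _ ≤ C * (c0 / C * n) := mul_le_mul_of_nonneg_left hsize hC.le
        _ = c0 * n := by field_simp
        _ ≤ r0 := h4
    exact_mod_cast h7
  have hq := quantized c r0 h5 s t π d b S hS hSl h (2 ^ r) (fun e hex => by
    obtain ⟨x, hx⟩ := hex
    obtain ⟨Z, hdegP, hzero⟩ := hdeg e
    obtain ⟨P, hP, hPx⟩ : ∃ P ∈ Z, MvPolynomial.eval x P ≠ 0 := by
      by_contra hcon
      push Not at hcon
      exact hx ((hzero x).2 hcon)
    have h8 := Pool.Agent.Y572.RM.dist r _ (Pool.Agent.Y572.RM.of_poly r P (hdegP P hP)) ⟨x, hPx⟩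
    refine h8.trans (Nat.mul_le_mul_left _ (card_le_card ?_))
    intro y hy
    rw [mem_filter] at hy ⊢
    exact ⟨mem_univ _, fun h => hy.2 ((hzero y).1 h P hP)⟩) ε hε η hη R hR1 hr
  push_cast at hq
  exact hq

end Pool.Agent.Y572.Deg
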