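import Pool.Agent.Y572.UG.Small

set_option autoImplicit false

/-!
All edges at a small set of left vertices can be satisfied as well as by the relaxation.
-/

namespace Pool.Agent.Y572.UG

open Finset Pool.Agent.H647R3.UG Pool.Agent.H573R3.SL Pool.Agent.TH522.UG Pool.Agent.TH522.US
  Pool.Agent.TH522.DG

section
variable {U V A E : Type} [Fintype U] [Fintype V] [Fintype E] [Fintype A] [DecidableEq A]

theorem fixset [DecidableEq U] [DecidableEq V] (u : E → U) (v : E → V) (π : E → Equiv.Perm A)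
    (S : Finset U) (k : ℕ) (hS : S.card ≤ k + 1) (L : ((U ⊕ V → A) → ℝ) →ₗ[ℝ] ℝ)
    (hL : Mixed k L) :
    ∃ X : U ⊕ V → A, ∑ e, (if u e ∈ S then L (sat (Sum.inl (u e)) (Sum.inr (v e)) (π e)) else 0) ≤
      ((univ.filter fun e => π e (X (Sum.inl (u e))) = X (Sum.inr (v e))).card : ℝ) := by
  classical
  have hne : Nonempty (U ⊕ V → A) := by
    by_contra hcon
    rw [not_nonempty_iff] at hcon
    have h1 := hL.one
    have h2 : (fun _ : U ⊕ V → A => (1 : ℝ)) = 0 := Subsingleton.elim _ _
    rw [h2, map_zero] at h1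
    exact zero_ne_one h1
  rcases isEmpty_or_nonempty E with hE | hE
  · obtain ⟨X0⟩ := hne
    exact ⟨X0, by simp⟩
  obtain ⟨e0⟩ := hE
  have hA : Nonempty A := by
    obtain ⟨X0⟩ := hne
    exact ⟨X0 (Sum.inl (u e0))⟩
  set cnt : V → A → (U ⊕ V → A) → ℝ := fun w b x =>
    ∑ e, if v e = w ∧ u e ∈ S ∧ π e (x (Sum.inl (u e))) = b then (1 : ℝ) else 0 with hcnt
  set N : V → (U ⊕ V → A) → ℝ := fun w x => univ.sup' univ_nonempty fun b => cnt w b x with hN
  have hdepc : ∀ w b (x y : U ⊕ V → A), (∀ p ∈ S.map Function.Embedding.inl, x p = y p) →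
      cnt w b x = cnt w b y := by
    intro w b x y h
    simp only [hcnt]
    refine sum_congr rfl fun e _ => ?_
    by_cases h1 : u e ∈ S
    · rw [h (Sum.inl (u e)) (by simp [h1])]
    · simp [h1]
  have hdepN : ∀ w (x y : U ⊕ V → A), (∀ p ∈ S.map Function.Embedding.inl, x p = y p) →
      N w x = N w y := by
    intro w x y h
    simp only [hN]
    congr 1
    funext b
    exact hdepc w b x y h
  -- the bound at one right vertex
  have h1 : ∀ w, ∑ e, (if v e = w ∧ u e ∈ S then
      L (sat (Sum.inl (u e)) (Sum.inr (v e)) (π e)) else 0) ≤ L (N w) := by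
    intro w
    have h2 : 0 ≤ L (N w - ∑ e, (if v e = w ∧ u e ∈ S then
        sat (Sum.inl (u e)) (Sum.inr (v e)) (π e) else 0)) := by
      refine hL.junta (insert (Sum.inr w) (S.map Function.Embedding.inl)) ?_ _ ?_ ?_
      · refine (card_insert_le _ _).trans ?_
        rw [card_map]
        omega
      · intro x y h
        rw [Pi.sub_apply, Pi.sub_apply, hdepN w x y fun p hp => h p (mem_insert_of_mem hp),
          Finset.sum_apply, Finset.sum_apply]
        congr 1
        refine sum_congr rfl fun e _ => ?_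
        by_cases h3 : v e = w ∧ u e ∈ S
        · rw [if_pos h3]
          refine Mx.dep_sat (Sum.inl (u e)) (Sum.inr (v e)) (π e) _ ?_ ?_ x y h
          · simp [h3.2]
          · simp [h3.1]
        · rw [if_neg h3]
          rfl
      · intro x
        rw [Pi.sub_apply, Finset.sum_apply, sub_nonneg]
        have h3 : ∑ e, (if v e = w ∧ u e ∈ S then
            sat (Sum.inl (u e)) (Sum.inr (v e)) (π e) else 0) x = cnt w (x (Sum.inr w)) x := by
          simp only [hcnt]
          refine sum_congr rfl fun e _ => ?_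
          by_cases h4 : v e = w ∧ u e ∈ S
          · rw [if_pos h4]
            unfold sat
            rw [h4.1]
            simp [h4.1, h4.2]
          · rw [if_neg h4, if_neg (fun h => h4 ⟨h.1, h.2.1⟩)]
            rfl
        rw [h3]
        exact Finset.le_sup' (fun b => cnt w b x) (mem_univ _)
    rw [map_sub, map_sum] at h2
    have h5 : ∀ e, L (if v e = w ∧ u e ∈ S then
        sat (Sum.inl (u e)) (Sum.inr (v e)) (π e) else 0) = if v e = w ∧ u e ∈ S then
        L (sat (Sum.inl (u e)) (Sum.inr (v e)) (π e)) else 0 := by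
      intro e
      split_ifs
      · rfl
      · exact map_zero L
    rw [sum_congr rfl fun e _ => h5 e] at h2
    linarith
  obtain ⟨x, hx⟩ := Finite.exists_max fun x : U ⊕ V → A => ∑ w, N w x
  have h2 : 0 ≤ L ((fun _ => ∑ w, N w x) - ∑ w, N w) := by
    refine hL.junta (S.map Function.Embedding.inl) ?_ _ ?_ ?_
    · rw [card_map]
      omega
    · intro y z h
      rw [Pi.sub_apply, Pi.sub_apply, Finset.sum_apply, Finset.sum_apply]
      congr 1
      exact sum_congr rfl fun w _ => hdepN w y z h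
    · intro y
      rw [Pi.sub_apply, Finset.sum_apply, sub_nonneg]
      exact hx y
  have h3 : (fun _ : U ⊕ V → A => ∑ w, N w x) = (∑ w, N w x) • fun _ => (1 : ℝ) := by
    funext y
    simp
  rw [map_sub, map_sum, h3, map_smul, hL.one, smul_eq_mul, mul_one] at h2
  have hB : ∀ w, ∃ b, N w x = cnt w b x := by
    intro w
    obtain ⟨b, -, hb⟩ := Finset.exists_mem_eq_sup' (univ_nonempty (α := A)) fun b => cnt w b x
    exact ⟨b, hb⟩
  choose B hB using hB
  refine ⟨Sum.elim (fun p => x (Sum.inl p)) B, ?_⟩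
  have h4 : ∑ e, (if u e ∈ S then L (sat (Sum.inl (u e)) (Sum.inr (v e)) (π e)) else 0) =
      ∑ w, ∑ e, (if v e = w ∧ u e ∈ S then
      L (sat (Sum.inl (u e)) (Sum.inr (v e)) (π e)) else 0) := by
    rw [sum_comm]
    refine sum_congr rfl fun e _ => ?_
    by_cases h5 : u e ∈ S
    · simp only [h5, and_true, if_true]
      rw [sum_ite_eq, if_pos (mem_univ _)]
    · simp [h5]
  have h5 : ∑ w, N w x ≤ ((univ.filter fun e => π e (Sum.elim (fun p => x (Sum.inl p)) B
      (Sum.inl (u e) : U ⊕ V)) = Sum.elim (fun p => x (Sum.inl p)) B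
      (Sum.inr (v e) : U ⊕ V)).card : ℝ) := by
    rw [card_filter]
    push_cast
    rw [sum_congr rfl fun w _ => hB w]
    simp only [hcnt]
    rw [sum_comm]
    refine sum_le_sum fun e _ => ?_
    rw [sum_eq_single (v e)]
    · simp only [Sum.elim_inl, Sum.elim_inr]
      by_cases h6 : π e (x (Sum.inl (u e))) = B (v e)
      · rw [if_pos h6]
        split_ifs <;> norm_num
      · rw [if_neg h6, if_neg (fun h => h6 h.2.2)]
    · intro w _ hw
      rw [if_neg (fun h => hw h.1.symm)]
    · intro h; exact absurd (mem_univ _) h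
  rw [h4]
  exact (sum_le_sum fun w _ => h1 w).trans (by linarith)

/-- a best left vertex -/
theorem star (u : E → U) (v : E → V) (π : E → Equiv.Perm A) (k : ℕ)
    (L : ((U ⊕ V → A) → ℝ) →ₗ[ℝ] ℝ) (hL : Mixed k L) (c : ℝ)
    (hval : c * (Fintype.card E : ℝ) ≤ ∑ e, L (sat (Sum.inl (u e)) (Sum.inr (v e)) (π e))) :
    ∃ X : U ⊕ V → A, c / Fintype.card U * (Fintype.card E : ℝ) ≤
      ((univ.filter fun e => π e (X (Sum.inl (u e))) = X (Sum.inr (v e))).card : ℝ) := by
  classical
  rcases isEmpty_or_nonempty U with hU | hU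
  · obtain ⟨X, hX⟩ := fixset u v π ∅ k (by simp) L hL
    refine ⟨X, le_trans (le_of_eq ?_) hX⟩
    simp
  obtain ⟨p, hp⟩ := Finite.exists_max fun p : U =>
    ∑ e, (if u e ∈ ({p} : Finset U) then L (sat (Sum.inl (u e)) (Sum.inr (v e)) (π e)) else 0)
  obtain ⟨X, hX⟩ := fixset u v π {p} k (by simp) L hL
  refine ⟨X, le_trans ?_ hX⟩
  have hn : (0 : ℝ) < Fintype.card U := by exact_mod_cast Fintype.card_pos
  rw [div_mul_eq_mul_div, div_le_iff₀ hn]
  refine hval.trans ?_
  have h1 : ∑ e, L (sat (Sum.inl (u e)) (Sum.inr (v e)) (π e)) = ∑ q, ∑ e,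
      (if u e ∈ ({q} : Finset U) then L (sat (Sum.inl (u e)) (Sum.inr (v e)) (π e)) else 0) := by
    rw [sum_comm]
    refine sum_congr rfl fun e _ => ?_
    simp only [mem_singleton]
    rw [sum_ite_eq, if_pos (mem_univ _)]
  rw [h1]
  refine (sum_le_sum fun q _ => hp q).trans (le_of_eq ?_)
  rw [sum_const, card_univ, nsmul_eq_mul, mul_comm]

/-- many levels -/
theorem exact_levels (u : E → U) (v : E → V) (π : E → Equiv.Perm A) (k : ℕ)
    (hk : Fintype.card U ≤ k + 1)
    (L : ((U ⊕ V → A) → ℝ) →ₗ[ℝ] ℝ) (hL : Mixed k L) (c : ℝ)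
    (hval : c * (Fintype.card E : ℝ) ≤ ∑ e, L (sat (Sum.inl (u e)) (Sum.inr (v e)) (π e))) :
    ∃ X : U ⊕ V → A, c * (Fintype.card E : ℝ) ≤
      ((univ.filter fun e => π e (X (Sum.inl (u e))) = X (Sum.inr (v e))).card : ℝ) := by
  classical
  obtain ⟨X, hX⟩ := fixset u v π univ k (by rw [card_univ]; exact hk) L hL
  refine ⟨X, hval.trans (le_trans (le_of_eq ?_) hX)⟩
  simp

end

end Pool.Agent.Y572.UG
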