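import Pool.Agent.W888.GX.Hyp3
import Pool.Agent.H30R2.NS.Gap

set_option autoImplicit false

/-!
Sparse systems of linear equations modulo two with three distinct variables per equation, such that
every small subsystem is solvable for every right-hand side, while some right-hand side is far from
every assignment.
-/

namespace Pool.Agent.Y572.Lin3

open Finset Pool.Agent.W888.GX

/-- the values of the left-hand sides -/
def lhs {n m : ℕ} (c : Fin m → Fin 3 → Fin n) (x : Fin n → ZMod 2) (j : Fin m) : ZMod 2 :=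
  ∑ s, x (c j s)

/-- every set of at most `r` equations is solvable, whatever the right-hand side -/
def LocSolv {n m : ℕ} (c : Fin m → Fin 3 → Fin n) (r : ℕ) : Prop :=
  ∀ J : Finset (Fin m), J.card ≤ r → ∀ b : Fin m → ZMod 2, ∃ y : Fin n → ZMod 2,
    ∀ j ∈ J, lhs c y j = b j

/-- expanding hypergraphs have unique neighbours, hence local solutions -/
theorem locSolv_of_exp {n m : ℕ} (c : Fin m → Fin 3 → Fin n) (r : ℕ)
    (h : ∀ J : Finset (Fin m), 1 ≤ J.card → J.card ≤ r → 7 * J.card ≤ 4 * (img c J).card) :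
    LocSolv c r := by
  classical
  have key : ∀ (N : ℕ) (J : Finset (Fin m)), J.card = N → J.card ≤ r → ∀ b : Fin m → ZMod 2,
      ∃ y : Fin n → ZMod 2, ∀ j ∈ J, lhs c y j = b j := by
    intro N
    induction N with
    | zero =>
      intro J hJ _ b
      rw [card_eq_zero] at hJ
      exact ⟨0, by simp [hJ]⟩
    | succ N ih =>
      intro J hJ hr b
      -- a variable which occurs exactly once
      have hex : ∃ i ∈ img c J, ((J ×ˢ (univ : Finset (Fin 3))).filter
          fun p => c p.1 p.2 = i).card = 1 := by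
        by_contra hcon
        push Not at hcon
        have h1 : ∀ i ∈ img c J, 2 ≤ ((J ×ˢ (univ : Finset (Fin 3))).filter
            fun p => c p.1 p.2 = i).card := by
          intro i hi
          have h2 := hcon i hi
          have h3 : 0 < ((J ×ˢ (univ : Finset (Fin 3))).filter
              fun p => c p.1 p.2 = i).card := by
            unfold img at hi
            rw [mem_biUnion] at hi
            obtain ⟨j, hj, hi⟩ := hi
            rw [mem_image] at hi
            obtain ⟨s, -, hs⟩ := hi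
            exact card_pos.2 ⟨(j, s), by simp [hj, hs]⟩
          omega
        have h2 : ∑ i ∈ img c J, ((J ×ˢ (univ : Finset (Fin 3))).filter
            fun p => c p.1 p.2 = i).card = (J ×ˢ (univ : Finset (Fin 3))).card := by
          refine (card_eq_sum_card_fiberwise (f := fun p : Fin m × Fin 3 => c p.1 p.2) ?_).symm
          rintro ⟨j, s⟩ hp
          simp only [coe_product, coe_univ, Set.mem_prod, mem_coe, Set.mem_univ, and_true] at hp
          unfold img
          exact mem_coe.2 (mem_biUnion.2 ⟨j, hp, mem_image_of_mem _ (mem_univ s)⟩)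
        have h3 : (img c J).card * 2 ≤ J.card * 3 := by
          calc (img c J).card * 2 = ∑ _i ∈ img c J, 2 := by rw [sum_const, smul_eq_mul]
            _ ≤ _ := sum_le_sum h1
            _ = _ := by rw [h2, card_product, card_univ, Fintype.card_fin]
        have h4 := h J (by omega) hr
        omega
      obtain ⟨i, -, hi1⟩ := hex
      rw [card_eq_one] at hi1
      obtain ⟨⟨j0, s0⟩, hp⟩ := hi1
      have hmem : (j0, s0) ∈ (J ×ˢ (univ : Finset (Fin 3))).filter fun p => c p.1 p.2 = i := by
        rw [hp]; exact mem_singleton_self _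
      rw [mem_filter, mem_product] at hmem
      have hj0 : j0 ∈ J := hmem.1.1
      have hc0 : c j0 s0 = i := hmem.2
      have huniq : ∀ j ∈ J, ∀ s, c j s = i → j = j0 ∧ s = s0 := by
        intro j hj s hs
        have h1 : (j, s) ∈ (J ×ˢ (univ : Finset (Fin 3))).filter fun p => c p.1 p.2 = i := by
          rw [mem_filter, mem_product]
          exact ⟨⟨hj, mem_univ _⟩, hs⟩
        rw [hp, mem_singleton] at h1
        exact ⟨congrArg Prod.fst h1, congrArg Prod.snd h1⟩
      obtain ⟨y, hy⟩ := ih (J.erase j0) (by rw [card_erase_of_mem hj0]; omega)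
        (by rw [card_erase_of_mem hj0]; omega) b
      refine ⟨fun v => if v = i then y i + (b j0 - lhs c y j0) else y v, ?_⟩
      intro j hj
      by_cases hjj : j = j0
      · subst hjj
        unfold lhs
        have h1 : ∀ s, (if c j s = i then y i + (b j - ∑ s, y (c j s)) else y (c j s)) =
            y (c j s) + if s = s0 then (b j - ∑ s, y (c j s)) else 0 := by
          intro s
          by_cases hs : s = s0
          · rw [if_pos hs, hs, hc0, if_pos rfl]
          · have : ¬ c j s = i := fun h => hs (huniq j hj s h).2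
            rw [if_neg hs, if_neg this, add_zero]
        show ∑ s, (if c j s = i then y i + (b j - ∑ s, y (c j s)) else y (c j s)) = b j
        rw [sum_congr rfl fun s _ => h1 s, sum_add_distrib, sum_ite_eq', if_pos (mem_univ _)]
        ring
      · rw [← hy j (mem_erase.2 ⟨hjj, hj⟩)]
        unfold lhs
        refine sum_congr rfl fun s _ => ?_
        have hne : ¬ c j s = i := fun h => hjj (huniq j hj s h).1
        exact if_neg hne
  intro J hJ b
  exact key _ J rfl hJ b

/-- sparse systems -/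
theorem exists_system (δ : ℝ) (hδ : 0 < δ) :
    ∃ M : ℕ, 1 ≤ M ∧ ∃ c0 : ℝ, 0 < c0 ∧ ∃ n0 : ℕ, ∀ n : ℕ, n0 ≤ n →
      ∃ (m : ℕ) (c : Fin m → Fin 3 → Fin n) (r : ℕ),
        n ≤ 2 * m ∧ m ≤ M * n ∧ (∀ j, Function.Injective (c j)) ∧ c0 * n ≤ r ∧ LocSolv c r ∧
        ∃ b : Fin m → ZMod 2, ∀ x : Fin n → ZMod 2,
          (1 / 2 - δ) * m ≤ (univ.filter fun j => lhs c x j ≠ b j).card := by
  classical
  obtain ⟨γ, hγ⟩ : ∃ γ, γ = δ / 4 := ⟨_, rfl⟩
  have hγ0 : 0 < γ := by rw [hγ]; positivity
  obtain ⟨q, hq'⟩ := exists_nat_gt (max (1 / γ) 2)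
  have hq : 1 / γ < q := lt_of_le_of_lt (le_max_left _ _) hq'
  have hq2 : (2 : ℝ) < q := lt_of_le_of_lt (le_max_right _ _) hq'
  have hq0 : (0 : ℝ) < q := lt_trans (by positivity) hq
  obtain ⟨M, hM⟩ := exists_nat_gt (Real.log 2 / (2 * γ ^ 2))
  have hlog : 0 < Real.log 2 := Real.log_pos (by norm_num)
  have hM0 : (0 : ℝ) < M := lt_of_le_of_lt (by positivity) hM
  have hM1 : 1 ≤ M := by
    have : 0 < M := by exact_mod_cast hM0
    omega
  obtain ⟨ξ, hξd⟩ : ∃ ξ : ℝ, ξ = 1 / (6 * 32 ^ q) := ⟨_, rfl⟩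
  have hξ0 : 0 < ξ := by rw [hξd]; positivity
  have hpξ : (32 : ℝ) ^ q * (6 * ξ) ≤ 1 := by
    rw [hξd]
    apply le_of_eq
    have : (0 : ℝ) < 32 ^ q := by positivity
    field_simp
  obtain ⟨K, hK⟩ : ∃ K : ℕ, K = 16384 * 3 ^ 12 * M ^ 4 := ⟨_, rfl⟩
  have hKpos : 0 < K := by
    rw [hK]
    have : 0 < M := by omega
    positivity
  have hK0 : (0 : ℝ) < K := by exact_mod_cast hKpos
  refine ⟨M, hM1, 1 / (2 * (K : ℝ)), by positivity, 24 * K + 6 * 32 ^ q, ?_⟩
  intro n hn
  have hn1 : 1 ≤ n := by omega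
  have hn0 : (0 : ℝ) < n := by exact_mod_cast hn1
  obtain ⟨r0, hr0⟩ : ∃ r0, r0 = n / K := ⟨_, rfl⟩
  have hr24 : 24 ≤ r0 := by
    rw [hr0, Nat.le_div_iff_mul_le hKpos]
    omega
  have hrn : r0 * K ≤ n := by
    rw [hr0]
    exact Nat.div_mul_le_self n K
  obtain ⟨c, hc1, hc2⟩ := exists_hyp3 (M * n) n (2 * r0) q ξ hn1
    (Nat.le_mul_of_pos_left n hM1)
    (by
      have h4 : 4 ≤ K := by
        rw [hK]
        calc 4 ≤ 16384 * 3 ^ 12 * 1 := by norm_num
          _ ≤ _ := Nat.mul_le_mul_left _ (Nat.one_le_pow _ _ (by omega))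
      calc 2 * (2 * r0) = r0 * 4 := by ring
        _ ≤ r0 * K := Nat.mul_le_mul_left _ h4
        _ ≤ n := hrn)
    (by
      have h1 : (r0 : ℝ) * K ≤ n := by exact_mod_cast hrn
      push_cast
      calc 8192 * 3 ^ 12 * ((M : ℝ) * n) ^ 4 * (2 * r0) =
            ((r0 : ℝ) * (16384 * 3 ^ 12 * M ^ 4)) * n ^ 4 := by ring
        _ = ((r0 : ℝ) * K) * n ^ 4 := by
            rw [hK]
            push_cast
            ring
        _ ≤ n * n ^ 4 := mul_le_mul_of_nonneg_right h1 (by positivity)
        _ = (n : ℝ) ^ 5 := by ring)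
    (by
      rw [hξd, one_div, inv_mul_eq_div, one_le_div (by positivity)]
      exact_mod_cast (by omega : 6 * 32 ^ q ≤ n)) hpξ
  obtain ⟨b, hb⟩ := Pool.Agent.H30R2.NS.exists_far (m := M * n) (γ := γ) hγ0 (by
    rw [Fintype.card_fin]
    push_cast
    rw [div_lt_iff₀ (by positivity)] at hM
    calc Real.log 2 * n < (M * (2 * γ ^ 2)) * n := mul_lt_mul_of_pos_right hM hn0
      _ = _ := by ring) (fun p : Fin (M * n) × Fin 3 => c p.1 p.2)
  -- the good equations
  obtain ⟨G, hG⟩ : ∃ G : Finset (Fin (M * n)), G = univ.filter fun j => ¬ Bad ∅ (c j) := ⟨_, rfl⟩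
  have hGc : (q : ℝ) * (Gᶜ.card : ℝ) ≤ M * n := by
    have h3 := hc2 ∅ (by rw [Finset.card_empty]; push_cast; positivity)
    have h4 : q * Gᶜ.card ≤ M * n := by
      have h5 : Gᶜ = univ.filter fun j => Bad ∅ (c j) := by
        rw [hG]
        ext j
        simp only [mem_compl, mem_filter, mem_univ, true_and, not_not]
      rw [h5]
      convert h3 using 2
    exact_mod_cast h4
  have hGc' : (Gᶜ.card : ℝ) ≤ γ * (M * n) := by
    have h3 : 1 < q * γ := by
      rwa [div_lt_iff₀ hγ0] at hq
    have h4 : (0 : ℝ) ≤ (Gᶜ.card : ℝ) := Nat.cast_nonneg _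
    calc (Gᶜ.card : ℝ) = 1 * Gᶜ.card := by ring
      _ ≤ (q * γ) * Gᶜ.card := mul_le_mul_of_nonneg_right h3.le h4
      _ = γ * (q * Gᶜ.card) := by ring
      _ ≤ γ * (M * n) := mul_le_mul_of_nonneg_left hGc hγ0.le
  have hGG : G.card + Gᶜ.card = M * n := by
    rw [Finset.card_add_card_compl, Fintype.card_fin]
  have hGhalf : M * n ≤ 2 * G.card := by
    have h2 : 2 * (Gᶜ.card : ℝ) ≤ M * n :=
      le_trans (mul_le_mul_of_nonneg_right hq2.le (Nat.cast_nonneg _)) hGc
    have h3 : 2 * Gᶜ.card ≤ M * n := by exact_mod_cast h2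
    omega
  have hmemG : ∀ i ∈ G, Function.Injective (c i) := by
    intro i hi
    rw [hG, mem_filter] at hi
    have h2 := hi.2
    unfold Bad at h2
    rw [not_not] at h2
    exact h2.1
  let e : Fin G.card ≃ G := G.equivFin.symm
  refine ⟨G.card, fun j => c (e j).1, 2 * r0, ?_, ?_, ?_, ?_, ?_, fun j => b (e j).1, ?_⟩
  · have h4 : n ≤ M * n := Nat.le_mul_of_pos_left n hM1
    omega
  · omega
  · intro j
    exact hmemG _ (e j).2
  · rw [one_div, inv_mul_eq_div, div_le_iff₀ (by positivity)]
    have h1 : n < (r0 + 1) * K := by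
      have h2 : n < (n / K + 1) * K := by
        have := Nat.lt_div_mul_add (a := n) hKpos
        calc n < n / K * K + K := this
          _ = _ := by ring
      rwa [← hr0] at h2
    have h3 : n ≤ (2 * r0) * (2 * K) := by
      calc n ≤ (r0 + 1) * K := h1.le
        _ ≤ (4 * r0) * K := Nat.mul_le_mul_right K (by omega)
        _ = _ := by ring
    exact_mod_cast h3
  · -- local solvability
    intro J hJ b'
    obtain ⟨y, hy⟩ := locSolv_of_exp c (2 * r0) hc1 (J.map ⟨fun j => (e j).1, fun i j hij =>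
      e.injective (Subtype.ext hij)⟩) (by rw [card_map]; exact hJ)
      (fun i => if h : i ∈ G then b' (e.symm ⟨i, h⟩) else 0)
    refine ⟨y, fun j hj => ?_⟩
    have h1 := hy (e j).1 (by rw [mem_map]; exact ⟨j, hj, rfl⟩)
    rw [dif_pos (e j).2] at h1
    have h2 : e.symm ⟨(e j).1, (e j).2⟩ = j := e.symm_apply_apply j
    rw [h2] at h1
    exact h1
  · intro x
    have h1 := hb x
    have h2 : (Pool.Agent.H30R2.NS.wt (Pool.Agent.H30R2.NS.A
        (fun p : Fin (M * n) × Fin 3 => c p.1 p.2) x + b) : ℝ) =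
        (univ.filter fun j => lhs c x j ≠ b j).card := by
      unfold Pool.Agent.H30R2.NS.wt
      congr 2
      ext j
      rw [mem_filter, mem_filter]
      refine and_congr_right fun _ => ?_
      have h3 : (Pool.Agent.H30R2.NS.A (fun p : Fin (M * n) × Fin 3 => c p.1 p.2) x + b) j =
          lhs c x j + b j := rfl
      rw [h3]
      have h4 : ∀ a b : ZMod 2, a + b ≠ 0 ↔ a ≠ b := by decide
      exact h4 _ _
    rw [h2] at h1
    have h5 : (univ.filter fun j => lhs c x j ≠ b j).card ≤
        (univ.filter fun j => lhs (fun j => c (e j).1) x j ≠ b (e j).1).card + Gᶜ.card := by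
      have h6 : (univ.filter fun j => lhs c x j ≠ b j) ⊆
          ((univ.filter fun j => lhs (fun j => c (e j).1) x j ≠ b (e j).1).map
            ⟨fun j => (e j).1, fun i j hij => e.injective (Subtype.ext hij)⟩) ∪ Gᶜ := by
        intro j hj
        rw [mem_filter] at hj
        rw [mem_union]
        by_cases hjG : j ∈ G
        · left
          rw [mem_map]
          refine ⟨e.symm ⟨j, hjG⟩, ?_, ?_⟩
          · rw [mem_filter]
            refine ⟨mem_univ _, ?_⟩
            have h7 : lhs (fun j => c (e j).1) x (e.symm ⟨j, hjG⟩) =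
                lhs c x (e (e.symm ⟨j, hjG⟩)).1 := rfl
            rw [h7, e.apply_symm_apply]
            exact hj.2
          · show (e (e.symm ⟨j, hjG⟩)).1 = j
            rw [e.apply_symm_apply]
        · right
          exact mem_compl.2 hjG
      refine (card_le_card h6).trans ((card_union_le _ _).trans ?_)
      rw [card_map]
    have h5' : ((univ.filter fun j => lhs c x j ≠ b j).card : ℝ) ≤
        (univ.filter fun j => lhs (fun j => c (e j).1) x j ≠ b (e j).1).card + Gᶜ.card := by
      exact_mod_cast h5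
    have hG2 : ((M * n : ℕ) : ℝ) ≤ 2 * G.card := by exact_mod_cast hGhalf
    have hG3 : (G.card : ℝ) ≤ ((M * n : ℕ) : ℝ) := by
      have : G.card ≤ M * n := by omega
      exact_mod_cast this
    push_cast at h1 hG2 hG3
    by_cases h7 : 1 / 2 - δ ≤ 0
    · exact le_trans (mul_nonpos_of_nonpos_of_nonneg h7 (Nat.cast_nonneg _)) (Nat.cast_nonneg _)
    · push Not at h7
      have h8 : (1 / 2 - δ) * (G.card : ℝ) = (1 / 2 - γ) * G.card - 3 * γ * G.card := by
        rw [hγ]; ring
      have h9 : (1 / 2 - γ) * (G.card : ℝ) ≤ (1 / 2 - γ) * (M * n) :=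
        mul_le_mul_of_nonneg_left hG3 (by rw [hγ]; linarith)
      have h10 : γ * ((M : ℝ) * n) ≤ γ * (2 * G.card) := mul_le_mul_of_nonneg_left hG2 hγ0.le
      have h11 : 0 ≤ γ * (G.card : ℝ) := by positivity
      rw [h8]
      linarith

end Pool.Agent.Y572.Lin3
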