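import Pool.Agent.Y572.UG.Main1
import Pool.Agent.TH843.LR.Form

set_option autoImplicit false

/-!
Local reductions from 3-SAT to unique games must be large.
-/

namespace Pool.Agent.Y572.UG

open Finset Pool.Agent.W888.GX Pool.Agent.TH700.UG Pool.Agent.TH522.UG
open Pool.Agent.H647R3.UG (sat)

section
variable {n D d : ℕ} {L : ((Fin n → ZMod 2) → ℝ) →ₗ[ℝ] ℝ} {W A : Type} [Fintype W]

/-- composition of a functional with a local encoding, as a solution of the mixed hierarchy -/
theorem mixed_comp {k : ℕ} (hL : IsPseudoExpectation D L)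
    (enc : (Fin n → ZMod 2) → W → A)
    (henc : ∀ v, ∃ S : Finset (Fin n), S.card ≤ d ∧ Reads (fun z => enc z v) S)
    (hD : (k + 2) * d ≤ D) : Mixed k (L.comp (LinearMap.funLeft ℝ ℝ enc)) := by
  classical
  choose S hS hR using henc
  have hread : ∀ (W' : Finset W) (f : (W → A) → ℝ), Dep W' f →
      Reads (fun z => f (enc z)) (W'.biUnion S) := by
    intro W' f hf x y hxy
    refine hf _ _ fun v hv => ?_
    exact hR v x y fun i hi => hxy i (mem_biUnion.2 ⟨v, hv, hi⟩)
  have hcard : ∀ W' : Finset W, (W'.biUnion S).card ≤ W'.card * d := by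
    intro W'
    exact card_biUnion_le.trans ((Finset.sum_le_card_nsmul W' _ d fun v _ => hS v).trans
      (by rw [smul_eq_mul]))
  refine ⟨?_, fun W' hW f hf hf0 => ?_, fun W' hW g hg hg0 c => ?_⟩
  · rw [LinearMap.comp_apply]
    exact hL.1
  · have h1 := hL.2 (fun z => Real.sqrt (f (enc z)))
      (mem_low (S := W'.biUnion S) ((hcard W').trans ((Nat.mul_le_mul_right d hW).trans hD))
      (hread W' (fun x => Real.sqrt (f x)) fun x y h => congrArg Real.sqrt (hf x y h)))
    have h2 : (fun z => (fun z => Real.sqrt (f (enc z))) z ^ 2) = fun z => f (enc z) := by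
      funext z
      exact Real.sq_sqrt (hf0 _)
    rw [h2] at h1
    exact h1
  · have hmem : (fun z => ∑ w, Real.sqrt (g (enc z)) * c w (enc z w)) ∈
        LowDegree (Fin n) (ZMod 2) D := by
      have h0 : (fun z => ∑ w, Real.sqrt (g (enc z)) * c w (enc z w)) =
          ∑ w, fun z => Real.sqrt (g (enc z)) * c w (enc z w) := by
        funext z
        rw [Finset.sum_apply]
      rw [h0]
      refine Submodule.sum_mem _ fun w _ => ?_
      refine mem_low (S := (insert w W').biUnion S) ?_ ?_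
      · refine (hcard _).trans (le_trans (Nat.mul_le_mul_right d ?_) hD)
        have := card_insert_le w W'
        omega
      · refine hread (insert w W') (fun x => Real.sqrt (g x) * c w (x w)) ?_
        intro x y h
        show Real.sqrt (g x) * c w (x w) = Real.sqrt (g y) * c w (y w)
        rw [hg x y fun i hi => h i (mem_insert_of_mem hi), h w (mem_insert_self _ _)]
    have h1 := hL.2 _ hmem
    have h2 : (fun z => (fun z => ∑ w, Real.sqrt (g (enc z)) * c w (enc z w)) z ^ 2) =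
        fun z => g (enc z) * (∑ w, c w (enc z w)) ^ 2 := by
      funext z
      simp only []
      rw [← mul_sum, mul_pow, Real.sq_sqrt (hg0 _)]
    rw [h2] at h1
    exact h1

end

/-- the value of the composed functional -/
theorem value_comp {n D d kk : ℕ} {I : Type} {L : ((Fin n → ZMod 2) → ℝ) →ₗ[ℝ] ℝ}
    {W A E : Type} [Fintype E] [DecidableEq A]
    (hL : IsPseudoExpectation D L) (F : I → Clause kk n)
    (hF : ∀ i, ∀ u : (Fin n → ZMod 2) → ℝ, (∀ x, (Satisfies x (F i) → u x = 0) ∧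
      (¬ Satisfies x (F i) → u x = 1)) → L u = 0)
    (s t : E → W) (π : E → Equiv.Perm A) (ε : ℝ) (enc : (Fin n → ZMod 2) → W → A)
    (P : Type) [Fintype P] (T : P → Finset (Fin n)) (g : P → (Fin n → ZMod 2) → ℝ)
    (hg : ∀ p, (T p).card ≤ d ∧ Reads (g p) (T p) ∧ ∀ x, SatOn F (T p) x → 0 ≤ g p x)
    (hv : ∀ x, (violated s t π (enc x) : ℝ) = ε * Fintype.card E - ∑ p, g p x) (hd : d ≤ D) :
    (1 - ε) * (Fintype.card E : ℝ) ≤
      ∑ e, (L.comp (LinearMap.funLeft ℝ ℝ enc)) (sat (s e) (t e) (π e)) := by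
  classical
  have h1 : ∑ e, (L.comp (LinearMap.funLeft ℝ ℝ enc)) (sat (s e) (t e) (π e)) =
      L (fun x => (1 - ε) * (Fintype.card E : ℝ) + ∑ p, g p x) := by
    rw [← map_sum, LinearMap.comp_apply]
    congr 1
    funext x
    rw [LinearMap.funLeft_apply, Finset.sum_apply]
    have h2 : (∑ e, sat (s e) (t e) (π e) (enc x)) + (violated s t π (enc x) : ℝ) =
        Fintype.card E := by
      unfold violated sat
      rw [card_filter]
      push_cast
      rw [← sum_add_distrib]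
      rw [sum_congr rfl fun e _ => (by
        by_cases h : π e (enc x (s e)) = enc x (t e)
        · rw [if_pos h, if_neg (not_not.2 h), add_zero]
        · rw [if_neg h, if_pos h, zero_add] :
        ((if π e (enc x (s e)) = enc x (t e) then (1 : ℝ) else 0) +
          if π e (enc x (s e)) ≠ enc x (t e) then 1 else 0) = 1)]
      rw [sum_const, card_univ, nsmul_eq_mul, mul_one]
    rw [hv x] at h2
    linarith
  have h3 : (fun x : Fin n → ZMod 2 => (1 - ε) * (Fintype.card E : ℝ) + ∑ p, g p x) =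
      ((1 - ε) * (Fintype.card E : ℝ)) • (fun _ => (1 : ℝ)) + ∑ p, g p := by
    funext x
    rw [Pi.add_apply, Pi.smul_apply, Finset.sum_apply, smul_eq_mul, mul_one]
  rw [h1, h3, map_add, map_smul, hL.1, smul_eq_mul, mul_one, map_sum]
  have h4 : 0 ≤ ∑ p, L (g p) := Finset.sum_nonneg fun p _ =>
    pe_local hL F hF (T p) ((hg p).1.trans hd) (g p) (hg p).2.1 (hg p).2.2
  linarith

/-- local reductions are large -/
theorem local_large : ∀ η : ℝ, 0 < η →
    ∃ M : ℕ, 1 ≤ M ∧ ∃ c0 : ℝ, 0 < c0 ∧ ∃ n₀ : ℕ, ∀ n : ℕ, n₀ ≤ n →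
      ∃ (I : Type) (_ : Fintype I) (F : I → Clause 3 n),
        n ≤ Fintype.card I ∧ Fintype.card I ≤ M * n ∧
        (∀ z, (1 / 8 - η) * (Fintype.card I : ℝ) ≤ (falsified F z : ℝ)) ∧
        ∀ (D : ℕ) (c s x : ℝ) (U V E A : Type) [Fintype U] [Fintype V] [Fintype E] [Fintype A]
          [DecidableEq A] (u : E → U) (v : E → V) (π : E → Equiv.Perm A), 1 ≤ D →
          0 < s → s < c → c < 1 → x = Real.log (1 / c) / Real.log (1 / s) →
          Represents F D (1 - c) (fun e => (Sum.inl (u e) : U ⊕ V)) (fun e => Sum.inr (v e)) π →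
          (∀ X : U ⊕ V → A,
            ((univ.filter fun e => π e (X (Sum.inl (u e))) = X (Sum.inr (v e))).card : ℝ) <
              s / 2 ^ 19 * Fintype.card E) →
          (c0 * n / D) ^ (1 / (2 ^ 25 * (x * Real.log (2 / x)))) < Fintype.card U := by
  intro η hη
  obtain ⟨M, hM, c1, hc1, n0, hn0⟩ := Pool.Agent.TH843.LR.exists_formula_card η hη
  refine ⟨M, hM, c1 / 2 ^ 26, by positivity, n0, fun n hn => ?_⟩
  obtain ⟨I, hI, F, D0, L, hcard0, hcard, hfar, hD0, hL, hF⟩ := hn0 n hn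
  refine ⟨I, hI, F, hcard0, hcard, hfar, ?_⟩
  intro D c s x U V E A _ _ _ _ _ u v π hD hs hsc hc1' hx hR hno
  by_contra hcon
  push Not at hcon
  have hDr : (0 : ℝ) < D := by exact_mod_cast hD
  obtain ⟨enc, P, hP, T, g, henc, hg, hv⟩ := hR
  have hc0 : 0 < c := hs.trans hsc
  -- there are edges
  have hE : Nonempty E := by
    by_contra hcon2
    rw [not_nonempty_iff] at hcon2
    have h1 := hno (enc 0)
    rw [Fintype.card_eq_zero (α := E)] at h1
    simp at h1
  obtain ⟨e0⟩ := hE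
  have hU1 : 1 ≤ Fintype.card U := Fintype.card_pos_iff.2 ⟨u e0⟩
  have hU1' : (1 : ℝ) ≤ Fintype.card U := by exact_mod_cast hU1
  have hls : 0 < Real.log (1 / s) := by
    apply Real.log_pos; rw [lt_div_iff₀ hs]; linarith
  have hlc : 0 < Real.log (1 / c) := by
    apply Real.log_pos; rw [lt_div_iff₀ hc0]; linarith
  have hx0 : 0 < x := by rw [hx]; positivity
  have hx1 : x < 1 := by
    rw [hx, div_lt_one hls]
    apply Real.log_lt_log (by positivity)
    exact one_div_lt_one_div_of_lt hs hsc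
  have hlog2 : 0 < Real.log (2 / x) := by
    apply Real.log_pos
    rw [lt_div_iff₀ hx0]
    linarith
  obtain ⟨θ, hθ⟩ : ∃ θ : ℝ, θ = 2 ^ 25 * (x * Real.log (2 / x)) := ⟨_, rfl⟩
  have hθ0 : 0 < θ := by rw [hθ]; positivity
  rw [← hθ, one_div] at hcon
  obtain ⟨y, hy⟩ : ∃ y : ℝ, y = c1 / 2 ^ 26 * n / D := ⟨_, rfl⟩
  rw [← hy] at hcon
  have hy0 : 0 ≤ y := by rw [hy]; positivity
  have hy1 : 1 ≤ y := by
    by_contra hlt
    push Not at hlt
    have h1 : y ^ θ⁻¹ < 1 := Real.rpow_lt_one hy0 hlt (by positivity)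
    linarith
  have hUθ : (Fintype.card U : ℝ) ^ θ ≤ y := by
    calc (Fintype.card U : ℝ) ^ θ ≤ (y ^ θ⁻¹) ^ θ :=
          Real.rpow_le_rpow (Nat.cast_nonneg _) hcon hθ0.le
      _ = _ := Real.rpow_inv_rpow hy0 hθ0.ne'
  obtain ⟨k, hk⟩ : ∃ k : ℕ, k = ⌈2 ^ 25 * y⌉₊ := ⟨_, rfl⟩
  have hk1 : 2 ^ 25 * y ≤ k := by rw [hk]; exact Nat.le_ceil _
  have hk2 : (k : ℝ) < 2 ^ 25 * y + 1 := by
    rw [hk]; exact Nat.ceil_lt_add_one (by positivity)
  have hkD : (k + 2) * D ≤ D0 := by
    have h2 : (((k + 2) * D : ℕ) : ℝ) ≤ D0 := by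
      push_cast
      have h3 : (k : ℝ) + 2 ≤ 2 ^ 26 * y := by
        norm_num at hk2 ⊢
        linarith
      calc ((k : ℝ) + 2) * D ≤ 2 ^ 26 * y * D := mul_le_mul_of_nonneg_right h3 hDr.le
        _ = c1 * n := by rw [hy]; field_simp
        _ ≤ D0 := hD0
    exact_mod_cast h2
  have hDD : D ≤ D0 := le_trans (Nat.le_mul_of_pos_left D (by omega)) hkD
  have hmix := mixed_comp hL enc henc hkD
  have hval := value_comp hL F hF (fun e => (Sum.inl (u e) : U ⊕ V)) (fun e => Sum.inr (v e)) π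
    (1 - c) enc P T g hg hv hDD
  rw [sub_sub_cancel] at hval
  obtain ⟨X, hX⟩ := main1 U V A E u v π c s x k _ hs hsc hc1' hx (by
    rw [← hθ]
    exact le_trans (mul_le_mul_of_nonneg_left hUθ (by norm_num)) hk1) hmix hval
  exact absurd (hno X) (not_lt.2 hX)

end Pool.Agent.Y572.UG
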