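import Pool.Agent.Y572.UG.Fix
import Pool.Agent.TH522.DG.Main

set_option autoImplicit false

/-!
Rounding of the mixed hierarchy for unique games: every completeness and every soundness.
-/

namespace Pool.Agent.Y572.UG

open Finset Pool.Agent.H647R3.UG Pool.Agent.H573R3.SL Pool.Agent.TH522.UG Pool.Agent.TH522.US
  Pool.Agent.TH522.DG

section
variable {U V A : Type} [Fintype U] [Fintype V]

/-- the same functional on pairs of labelings -/
def toPair (L : ((U ⊕ V → A) → ℝ) →ₗ[ℝ] ℝ) : ((U → A) × (V → A) → ℝ) →ₗ[ℝ] ℝ where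
  toFun f := L fun x => f (fun p => x (Sum.inl p), fun q => x (Sum.inr q))
  map_add' f g := by
    rw [← map_add]
    rfl
  map_smul' c f := by
    rw [← map_smul]
    rfl

theorem toPair_mixed (k : ℕ) (L : ((U ⊕ V → A) → ℝ) →ₗ[ℝ] ℝ) (hL : Mixed k L) :
    Mixed2 k (toPair L) := by
  classical
  have hdep : ∀ (S : Finset U) (T : Finset V) (f : (U → A) × (V → A) → ℝ), Dep2 S T f →
      Dep (S.disjSum T) fun x : U ⊕ V → A => f (fun p => x (Sum.inl p), fun q => x (Sum.inr q)) := by
    intro S T f hf x y h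
    refine hf _ _ (fun w hw => ?_) fun w hw => ?_
    · exact h _ (by simpa using hw)
    · exact h _ (by simpa using hw)
  refine ⟨hL.one, fun S T hS f hf hf0 => ?_, fun S T hS g hg hg0 c c' => ?_⟩
  · exact hL.junta (S.disjSum T) (by rw [card_disjSum]; exact hS) _ (hdep S T f hf) fun z => hf0 _
  · have h1 := hL.psd (S.disjSum T) (by rw [card_disjSum]; exact hS) _ (hdep S T g hg)
      (fun z => hg0 _) (Sum.elim c c')
    refine h1.trans (le_of_eq ?_)
    show _ = L _
    congr 1
    funext x
    rw [Fintype.sum_sum_type]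
    simp only [Sum.elim_inl, Sum.elim_inr]

end

theorem ylog {x y : ℝ} (hy : 0 < y) (hxy : y ≤ x) (hx1 : x ≤ 1) :
    y * Real.log (2 / y) ≤ 2 * (x * Real.log (2 / x)) := by
  have hx : 0 < x := lt_of_lt_of_le hy hxy
  have h1 : Real.log (2 / y) = Real.log (2 / x) + Real.log (x / y) := by
    rw [← Real.log_mul (by positivity) (by positivity)]
    congr 1
    field_simp
  have h2 : Real.log (x / y) ≤ x / y - 1 := Real.log_le_sub_one_of_pos (by positivity)
  have h3 : y * Real.log (x / y) ≤ x - y := by
    calc y * Real.log (x / y) ≤ y * (x / y - 1) := mul_le_mul_of_nonneg_left h2 hy.le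
      _ = x - y := by field_simp
  have h4 : Real.log 2 ≤ Real.log (2 / x) := by
    apply Real.log_le_log (by norm_num)
    rw [le_div_iff₀ hx]
    linarith
  have h5 := Real.log_two_gt_d9
  rw [h1]
  nlinarith

theorem main1 : ∀ (U V A E : Type) [Fintype U] [Fintype V] [Fintype A] [DecidableEq A]
    [Fintype E] (u : E → U) (v : E → V) (π : E → Equiv.Perm A) (c s x : ℝ) (k : ℕ)
    (L : ((U ⊕ V → A) → ℝ) →ₗ[ℝ] ℝ), 0 < s → s < c → c < 1 →
    x = Real.log (1 / c) / Real.log (1 / s) →
    2 ^ 25 * (Fintype.card U : ℝ) ^ (2 ^ 25 * (x * Real.log (2 / x))) ≤ k → Mixed k L →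
    c * (Fintype.card E : ℝ) ≤ ∑ e, L (sat (Sum.inl (u e)) (Sum.inr (v e)) (π e)) →
    ∃ X : U ⊕ V → A, s / 2 ^ 19 * (Fintype.card E : ℝ) ≤
      ((univ.filter fun e => π e (X (Sum.inl (u e))) = X (Sum.inr (v e))).card : ℝ) := by
  intro U V A E _ _ _ _ _ u v π c s x k L hs hsc hc1 hx hk hL hval
  classical
  have hc : 0 < c := hs.trans hsc
  have hs1 : s < 1 := hsc.trans hc1
  rcases isEmpty_or_nonempty E with hE | hE
  · obtain ⟨X, hX⟩ := star u v π k L hL c hval
    exact ⟨X, by simp⟩
  have hE0 : (0 : ℝ) < Fintype.card E := by exact_mod_cast Fintype.card_pos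
  obtain ⟨e0⟩ := hE
  have hU : Nonempty U := ⟨u e0⟩
  obtain ⟨n, hn⟩ : ∃ n, n = Fintype.card U := ⟨_, rfl⟩
  have hn1 : 1 ≤ n := by rw [hn]; exact Fintype.card_pos
  have hn1' : (1 : ℝ) ≤ n := by exact_mod_cast hn1
  have hn0 : (0 : ℝ) < n := by linarith
  rw [← hn] at hk
  -- enough levels
  rcases le_or_gt n (k + 1) with hnk | hnk
  · obtain ⟨X, hX⟩ := exact_levels u v π k (by rw [← hn]; exact hnk) L hL c hval
    refine ⟨X, le_trans ?_ hX⟩
    refine mul_le_mul_of_nonneg_right ?_ hE0.le
    rw [div_le_iff₀ (by norm_num)]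
    linarith
  obtain ⟨l, hl⟩ : ∃ l, l = Real.log (1 / s) := ⟨_, rfl⟩
  have hl0 : 0 < l := by
    rw [hl]; apply Real.log_pos; rw [lt_div_iff₀ hs]; linarith
  have hlc0 : 0 < Real.log (1 / c) := by
    apply Real.log_pos; rw [lt_div_iff₀ hc]; linarith
  have hlcs : Real.log (1 / c) < l := by
    rw [hl]
    apply Real.log_lt_log (by positivity)
    exact one_div_lt_one_div_of_lt hs hsc
  rw [← hl] at hx
  have hxl : x * l = Real.log (1 / c) := by rw [hx]; field_simp
  have hx0 : 0 < x := by rw [hx]; positivity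
  have hx1 : x < 1 := by rw [hx, div_lt_one hl0]; exact hlcs
  have hes : Real.exp (-l) = s := by
    rw [hl, Real.exp_neg, Real.exp_log (by positivity), one_div, inv_inv]
  obtain ⟨w, hw⟩ : ∃ w, w = x * Real.log (2 / x) := ⟨_, rfl⟩
  rw [← hw] at hk
  have hl2 := Real.log_two_gt_d9
  have hl2' := Real.log_two_lt_d9
  have hlog2x : Real.log 2 ≤ Real.log (2 / x) := by
    apply Real.log_le_log (by norm_num)
    rw [le_div_iff₀ hx0]
    linarith
  have hwx : Real.log 2 * x ≤ w := by
    rw [hw, mul_comm]; exact mul_le_mul_of_nonneg_left hlog2x hx0.le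
  have hw0 : 0 < w := lt_of_lt_of_le (by positivity) hwx
  have hkn : (k : ℝ) < n := by
    have : k < n := by omega
    exact_mod_cast this
  have hwC : 2 ^ 25 * w < 1 := by
    by_contra hcon
    push Not at hcon
    have h1 : (n : ℝ) ^ (1 : ℝ) ≤ (n : ℝ) ^ (2 ^ 25 * w) :=
      Real.rpow_le_rpow_of_exponent_le hn1' hcon
    rw [Real.rpow_one] at h1
    linarith
  have hxs : x ≤ 1 / 2 ^ 24 := by
    rw [le_div_iff₀ (by norm_num)]
    nlinarith
  have hmono : ∀ a b : ℝ, a ≤ b → (n : ℝ) ^ a ≤ (n : ℝ) ^ b := fun a b h =>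
    Real.rpow_le_rpow_of_exponent_le hn1' h
  have h1n : ∀ a : ℝ, 0 ≤ a → 1 ≤ (n : ℝ) ^ a := fun a h => Real.one_le_rpow hn1' h
  have hstar : ∀ y : ℝ, y ≤ c / n → ∃ X : U ⊕ V → A, y * (Fintype.card E : ℝ) ≤
      ((univ.filter fun e => π e (X (Sum.inl (u e))) = X (Sum.inr (v e))).card : ℝ) := by
    intro y hy
    obtain ⟨X, hX⟩ := star u v π k L hL c hval
    rw [← hn] at hX
    exact ⟨X, le_trans (mul_le_mul_of_nonneg_right hy hE0.le) hX⟩
  obtain ⟨ε, hε⟩ : ∃ ε, ε = 1 - c := ⟨_, rfl⟩
  have hε0 : 0 < ε := by rw [hε]; linarith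
  have hεlog : ε ≤ Real.log (1 / c) := by
    have h1 := Real.log_le_sub_one_of_pos hc
    rw [one_div, Real.log_inv, hε]
    linarith
  have hlogn : 0 ≤ Real.log n := Real.log_nonneg hn1'
  rcases le_or_gt ε (1 / 49152) with hεs | hεs
  · rcases le_or_gt l (Real.log n) with hln | hln
    · -- almost perfect completeness
      have hyx : ε / l ≤ x := by rw [hx]; exact div_le_div_of_nonneg_right hεlog hl0.le
      have hy0 : 0 < ε / l := by positivity
      have h2 := ylog hy0 hyx hx1.le
      rw [← hw] at h2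
      have hk2 : (2 : ℝ) ^ 20 * (n : ℝ) ^ (196612 * (ε / l * Real.log (2 / (ε / l)))) + 1 ≤ k := by
        have h3 : (n : ℝ) ^ (196612 * (ε / l * Real.log (2 / (ε / l)))) ≤ (n : ℝ) ^ (2 ^ 25 * w) :=
          hmono _ _ (by nlinarith)
        have h4 := h1n (2 ^ 25 * w) (by positivity)
        generalize (n : ℝ) ^ (2 ^ 25 * w) = X at h3 h4 hk
        generalize (n : ℝ) ^ (196612 * (ε / l * Real.log (2 / (ε / l)))) = Y at h3 ⊢
        norm_num at hk ⊢
        linarith
      have hk1 : 1 ≤ k := by
        have h3 : (0 : ℝ) < k := lt_of_lt_of_le (by positivity) hk2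
        exact_mod_cast h3
      obtain ⟨k', rfl⟩ : ∃ k', k = k' + 1 := ⟨k - 1, by omega⟩
      obtain ⟨X, hX⟩ := coreA u v π ε l (ε / l) hε0 hεs (hεlog.trans hlcs.le) rfl
        (by rw [← hn]; exact hln) k' (by
          rw [← hn]
          push_cast at hk2
          linarith) L hL (by
          have : 1 - ε = c := by rw [hε]; ring
          rw [this]; exact hval)
      refine ⟨X, le_trans ?_ hX⟩
      rw [hes]
      refine mul_le_mul_of_nonneg_right ?_ hE0.le
      apply div_le_div_of_nonneg_left hs.le (by norm_num) (by norm_num)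
    · refine hstar _ ?_
      have h1 : s < 1 / n := by
        rw [← hes, lt_div_iff₀ hn0]
        have e1 : Real.exp (-l) * n = Real.exp (-l + Real.log n) := by
          rw [Real.exp_add, Real.exp_log hn0]
        rw [e1]
        have e2 : Real.exp (-l + Real.log n) < Real.exp 0 := Real.exp_lt_exp.mpr (by linarith)
        rwa [Real.exp_zero] at e2
      rw [lt_div_iff₀ hn0] at h1
      rw [div_le_div_iff₀ (by norm_num) hn0]
      nlinarith
  · rcases le_or_gt s (c / n) with hsn | hsn
    · refine hstar _ (le_trans ?_ hsn)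
      rw [div_le_iff₀ (by norm_num)]
      linarith
    · have hll : l * (1 - x) < Real.log n := by
        have h1 : Real.log (c / n) < Real.log s := Real.log_lt_log (by positivity) hsn
        rw [Real.log_div hc.ne' hn0.ne'] at h1
        have h2 : Real.log (1 / c) = - Real.log c := by rw [one_div, Real.log_inv]
        have h3 : l = - Real.log s := by rw [hl, one_div, Real.log_inv]
        nlinarith
      obtain ⟨l', hl'⟩ : ∃ l', l' = l * (1 - 5 * x) := ⟨_, rfl⟩
      have hl'1 : l / 2 ≤ l' := by rw [hl']; nlinarith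
      have hl'0 : 0 < l' := by linarith
      have hl'n : l' ≤ Real.log n := by
        rw [hl']
        nlinarith
      have hxl2 : 1 / 49152 < x * l := by rw [hxl]; linarith
      have h256 : Real.log (256 * (1 : ℕ) / c ^ 4) = Real.log 256 + 4 * (x * l) := by
        rw [Nat.cast_one, mul_one, Real.log_div (by norm_num) (by positivity), Real.log_pow, hxl,
          one_div, Real.log_inv]
        push_cast
        ring
      have hlog256 : Real.log 256 ≤ 5.546 := by
        have : (256 : ℝ) = 2 ^ 8 := by norm_num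
        rw [this, Real.log_pow]
        push_cast
        linarith
      have hnum : Real.log (256 * (1 : ℕ) / c ^ 4) ≤ 272604 * (x * l) := by
        rw [h256]
        linarith
      have hnum0 : 0 < Real.log (256 * (1 : ℕ) / c ^ 4) := by
        rw [h256]
        have : 0 < Real.log 256 := Real.log_pos (by norm_num)
        have : 0 < x * l := by positivity
        linarith
      have hle : Real.log (256 * (1 : ℕ) / c ^ 4) ≤ l' := by
        refine hnum.trans ?_
        have : 272604 * (x * l) ≤ l / 2 := by nlinarith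
        linarith
      obtain ⟨z, hz⟩ : ∃ z, z = Real.log (256 * (1 : ℕ) / c ^ 4) / l' := ⟨_, rfl⟩
      have hz0 : 0 < z := by rw [hz]; positivity
      have hzX : z ≤ 2 ^ 20 * x := by
        rw [hz, div_le_iff₀ hl'0]
        refine hnum.trans ?_
        have : 2 ^ 20 * x * (l / 2) ≤ 2 ^ 20 * x * l' :=
          mul_le_mul_of_nonneg_left hl'1 (by positivity)
        nlinarith
      have hX1 : (2 : ℝ) ^ 20 * x ≤ 1 := by
        have := mul_le_mul_of_nonneg_left hxs (by norm_num : (0 : ℝ) ≤ 2 ^ 20)
        norm_num at this ⊢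
        linarith
      have hzl := ylog hz0 hzX hX1
      have hlogX : Real.log (2 / (2 ^ 20 * x)) ≤ Real.log (2 / x) := by
        apply Real.log_le_log (by positivity)
        apply div_le_div_of_nonneg_left (by norm_num) hx0
        nlinarith
      have hexp : 9 * (z * Real.log (2 / z)) ≤ 2 ^ 25 * w := by
        have h1 : 2 ^ 20 * x * Real.log (2 / (2 ^ 20 * x)) ≤ 2 ^ 20 * w := by
          rw [hw]
          have := mul_le_mul_of_nonneg_left hlogX (by positivity : 0 ≤ 2 ^ 20 * x)
          linarith
        nlinarith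
      obtain ⟨M, N, hMN⟩ := Pool.Agent.TH522.DG.core (V := V) (W := U) (A := A) (B := A) v u
        (fun e => (π e : A → A)) 1 (fun e b => by
          rw [Finset.card_le_one]
          intro a ha a' ha'
          simp only [Finset.mem_filter, Finset.mem_univ, true_and] at ha ha'
          exact (π e).injective (ha.trans ha'.symm)) c l' z hc hc1.le hz hl'0 hle
        (by rw [← hn]; exact hl'n) k (by
          rw [← hn]
          refine (hmono _ _ hexp).trans ?_
          have := h1n (2 ^ 25 * w) (by positivity)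
          linarith) (toPair L) (toPair_mixed k L hL) (by
          refine hval.trans (le_of_eq ?_)
          refine sum_congr rfl fun e _ => ?_
          rfl)
      refine ⟨Sum.elim M N, ?_⟩
      have h5 : c ^ 5 * Real.exp (-l') = s := by
        have h6 : Real.exp (-l') = s * Real.exp (5 * (x * l)) := by
          rw [← hes, ← Real.exp_add, hl']
          congr 1
          ring
        have h7 : Real.exp (5 * (x * l)) = (1 / c) ^ 5 := by
          rw [hxl]
          have : (5 : ℝ) * Real.log (1 / c) = ((5 : ℕ) : ℝ) * Real.log (1 / c) := by norm_num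
          rw [this, Real.exp_nat_mul, Real.exp_log (by positivity)]
        rw [h6, h7]
        field_simp
      rw [h5] at hMN
      simpa only [Sum.elim_inl, Sum.elim_inr] using hMN

end Pool.Agent.Y572.UG
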