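import Pool.Agent.Y572.UG.Tri

set_option autoImplicit false

/-!
Rounding of the mixed hierarchy for unique games with almost perfect completeness and small
soundness.
-/

namespace Pool.Agent.Y572.UG

open Finset Pool.Agent.H647R3.UG Pool.Agent.H573R3.SL Pool.Agent.TH522.UG Pool.Agent.TH522.US
  Pool.Agent.TH522.DG

section
variable {U V A E : Type} [Fintype U] [Fintype V] [Fintype E] [Fintype A] [DecidableEq A]

omit [Fintype U] [Fintype V] [Fintype E] in
theorem rl_perm (p q : Equiv.Perm A) (a b : A) :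
    rl (p : A → A) (q : A → A) (fun x y => (if x = a then (1 : ℝ) else 0) * (if y = b then 1 else 0)) =
      if p a = q b then 1 else 0 := by
  unfold rl
  rw [sum_eq_single a]
  · rw [sum_eq_single b]
    · simp
    · intro y _ hy
      simp [hy]
    · intro h; exact absurd (mem_univ _) h
  · intro x _ hx
    refine sum_eq_zero fun y _ => ?_
    simp [hx]
  · intro h; exact absurd (mem_univ _) h

/-- completeness `1 - ε` with small `ε` -/
theorem coreA [DecidableEq U] [DecidableEq V] (u : E → U) (v : E → V) (π : E → Equiv.Perm A)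
    (ε l x : ℝ) (hε : 0 < ε) (hε1 : ε ≤ 1 / 49152) (hl : ε ≤ l) (hx : x = ε / l)
    (hln : l ≤ Real.log (Fintype.card U)) (k : ℕ)
    (hk : 2 ^ 20 * (Fintype.card U : ℝ) ^ (196612 * (x * Real.log (2 / x))) ≤ k)
    (L : ((U ⊕ V → A) → ℝ) →ₗ[ℝ] ℝ) (hL : Mixed (k + 1) L)
    (hval : (1 - ε) * (Fintype.card E : ℝ) ≤
      ∑ e, L (sat (Sum.inl (u e)) (Sum.inr (v e)) (π e))) :
    ∃ X : U ⊕ V → A, Real.exp (-l) / 8192 * (Fintype.card E : ℝ) ≤
      ((univ.filter fun e => π e (X (Sum.inl (u e))) = X (Sum.inr (v e))).card : ℝ) := by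
  classical
  have hne : Nonempty (U ⊕ V → A) := by
    by_contra hcon
    rw [not_nonempty_iff] at hcon
    have h1 := hL.one
    have h2 : (fun _ : U ⊕ V → A => (1 : ℝ)) = 0 := Subsingleton.elim _ _
    rw [h2, map_zero] at h1
    exact zero_ne_one h1
  obtain ⟨X0⟩ := hne
  rcases Nat.eq_zero_or_pos (Fintype.card E) with hE | hE
  · refine ⟨X0, ?_⟩
    rw [hE]
    simp
  have hE0 : (0 : ℝ) < Fintype.card E := by exact_mod_cast hE
  obtain ⟨e0⟩ : Nonempty E := Fintype.card_pos_iff.1 hE
  have hA : Nonempty A := ⟨X0 (Sum.inl (u e0))⟩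
  have hl0 : 0 < l := lt_of_lt_of_le hε hl
  have hlog : 0 < Real.log (Fintype.card U) := by linarith
  have hn : 0 < Fintype.card U := Fintype.card_pos_iff.2 ⟨u e0⟩
  have hn0 : (0 : ℝ) < Fintype.card U := by exact_mod_cast hn
  have hx0 : 0 < x := by rw [hx]; positivity
  have hx1 : x ≤ 1 := by rw [hx, div_le_one hl0]; exact hl
  set s : E → U ⊕ V := fun e => Sum.inl (u e) with hs
  set t : E → U ⊕ V := fun e => Sum.inr (v e) with ht
  have hsat1 : ∀ e, L (sat (s e) (t e) (π e)) ≤ 1 := fun e => Mx.sat_le hL _ _ _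
  -- good edges
  set G : E → Prop := fun e => 1 - L (sat (s e) (t e) (π e)) ≤ 2 * ε with hG
  set ω : E → ℝ := fun e => if G e then (1 : ℝ) else 0 with hωd
  have hω : ∀ e, 0 ≤ ω e := fun e => by simp only [hωd]; split_ifs <;> norm_num
  have hgood : (Fintype.card E : ℝ) / 2 ≤ ∑ e, ω e := by
    have h1 : ∀ e, 1 - (1 - L (sat (s e) (t e) (π e))) / (2 * ε) ≤ ω e := by
      intro e
      simp only [hωd]
      by_cases h : G e
      · rw [if_pos h]
        have : 0 ≤ (1 - L (sat (s e) (t e) (π e))) / (2 * ε) :=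
          div_nonneg (by linarith [hsat1 e]) (by linarith)
        linarith
      · rw [if_neg h]
        simp only [hG, not_le] at h
        have : 1 ≤ (1 - L (sat (s e) (t e) (π e))) / (2 * ε) := by
          rw [one_le_div (by linarith)]; exact h.le
        linarith
    have h2 := sum_le_sum fun e (_ : e ∈ (univ : Finset E)) => h1 e
    rw [sum_sub_distrib, sum_const, card_univ, nsmul_eq_mul, mul_one, ← sum_div,
      sum_sub_distrib, sum_const, card_univ, nsmul_eq_mul, mul_one] at h2
    have h3 : ((Fintype.card E : ℝ) - ∑ e, L (sat (s e) (t e) (π e))) / (2 * ε) ≤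
        Fintype.card E / 2 := by
      rw [div_le_iff₀ (by linarith)]
      have : (Fintype.card E : ℝ) / 2 * (2 * ε) = ε * Fintype.card E := by ring
      rw [this]
      linarith
    linarith
  have hD : 0 < ∑ e, ω e := lt_of_lt_of_le (by positivity) hgood
  have hκ0 : 0 < l / (2 * Real.log (Fintype.card U)) := by positivity
  have hκ1 : l / (2 * Real.log (Fintype.card U)) < 1 := by
    rw [div_lt_one (by positivity)]
    linarith
  have hβe : (Fintype.card U : ℝ) ^ (-(2 * (l / (2 * Real.log (Fintype.card U))))) =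
      Real.exp (-l) := by
    rw [Real.rpow_def_of_pos hn0]
    congr 1
    field_simp
  set S0 : Finset (U ⊕ V) := univ.map Function.Embedding.inl with hS0
  have hSc : S0.card = Fintype.card U := by rw [hS0, card_map, card_univ]
  have hsS : ∀ e, s e ∈ S0 := fun e => by simp [hs, hS0]
  have hkr := numA (Fintype.card U) ε l x hε hε1 hl hx hlog k hk
  have hpart := fun (U0 : Finset (U ⊕ V)) (hU0 : U0 ⊆ S0) =>
    Pool.Agent.TH522.US.part_round (hier_succ (V := U ⊕ V) (A := A)) (fun k L h => tri h) s t π ω hω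
      hD (Fintype.card U) hn (l / (2 * Real.log (Fintype.card U))) x (2 * ε)
      (12288 * (2 * ε)) hκ0 hκ1 hx0 hx1 (by linarith) le_rfl (by linarith) k hkr L hL
      (fun e he => by
        by_contra hcon
        have h1 : ω e = 0 := by
          simp only [hωd]
          rw [if_neg]
          exact hcon
        linarith) U0 (by rw [← hSc]; exact card_le_card hU0)
  rw [hβe] at hpart
  have hpart2 : ∀ U0 : Finset (U ⊕ V), U0 ⊆ S0 → (∑ e, ω e) / 2 ≤
      bil (K2 s t ω) (fun v => if v ∈ U0 then 1 else 0) (fun v => if v ∈ U0 then 1 else 0) →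
      ∃ (p : U ⊕ V → A → ℝ) (S : Finset (U ⊕ V)), IsP p ∧ S.Nonempty ∧ S ⊆ U0 ∧
        Real.exp (-l) / 1024 * ∑ u ∈ S, ds s ω u ≤ gf s t (fun e => (π e : A → A)) ω p S := by
    intro U0 hU0 hU
    obtain ⟨X, S, hS, hSU, hSb⟩ := hpart U0 hU0 hU
    refine ⟨fun v a => if a = X v then 1 else 0, S,
      ⟨fun v a => by beta_reduce; split_ifs <;> norm_num, fun v => by simp⟩, hS, hSU, ?_⟩
    refine hSb.trans (le_of_eq ?_)
    unfold gf
    congr 1
    funext e e'
    rw [rl_perm]
    by_cases h1 : s e ∈ S ∧ s e' ∈ S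
    · by_cases h2 : π e (X (s e)) = π e' (X (s e'))
      · rw [if_pos ⟨h1, h2⟩, if_pos h1, if_pos h2]; norm_num
      · rw [if_neg (fun h => h2 h.2), if_pos h1, if_neg h2]; norm_num
    · rw [if_neg (fun h => h1 h.1), if_neg h1]; norm_num
  obtain ⟨X, Y, hXY⟩ := two_sided s t (fun e => (π e : A → A)) ω hω (Real.exp (-l) / 1024)
    (by positivity) S0 hsS hpart2 (fun _ a => if a = X0 (Sum.inl (u e0)) then 1 else 0)
    ⟨fun _ a => by beta_reduce; split_ifs <;> norm_num, fun _ => by simp⟩
  refine ⟨Sum.elim (fun w => X (Sum.inl w)) (fun w => Y (Sum.inr w)), ?_⟩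
  have h1 : ∑ e, ω e * (if π e (X (s e)) = Y (t e) then 1 else 0) ≤
      ((univ.filter fun e => π e (Sum.elim (fun w => X (Sum.inl w)) (fun w => Y (Sum.inr w))
        (Sum.inl (u e) : U ⊕ V)) = Sum.elim (fun w => X (Sum.inl w)) (fun w => Y (Sum.inr w))
        (Sum.inr (v e) : U ⊕ V)).card : ℝ) := by
    rw [card_filter]
    push_cast
    refine sum_le_sum fun e _ => ?_
    simp only [hωd, hs, ht, Sum.elim_inl, Sum.elim_inr]
    split_ifs <;> norm_num
  refine le_trans ?_ (hXY.trans h1)
  have h2 : Real.exp (-l) / 1024 * ((Fintype.card E : ℝ) / 2) ≤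
      Real.exp (-l) / 1024 * ∑ e, ω e :=
    mul_le_mul_of_nonneg_left hgood (by positivity)
  linarith

end

end Pool.Agent.Y572.UG
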